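import Pool.Agent.Helper96.WT.Stm

/-!
# Part A: every rooted tree is realised by a graph which is a tree
-/

set_option autoImplicit false

namespace Pool.Agent.Helper96.WT

open Polynomial Finset

theorem exists_closer {V : Type} {G : SimpleGraph V} (hG : G.Connected) {u w : V} (h : u ≠ w) :
    ∃ v, G.Adj u v ∧ G.dist v w + 1 = G.dist u w := by
  obtain ⟨p, hp⟩ := hG.exists_walk_length_eq_dist u w
  cases p with
  | nil => exact absurd rfl h
  | cons ha q =>
    rename_i v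
    refine ⟨v, ha, ?_⟩
    rw [SimpleGraph.Walk.length_cons] at hp
    have h1 := SimpleGraph.dist_le q
    have h2 := hG.dist_triangle (u := u) (v := v) (w := w)
    have h3 := SimpleGraph.dist_eq_one_iff_adj.2 ha
    omega

theorem dist_char {V : Type} {G : SimpleGraph V} (D : V → V → ℕ) (h0 : ∀ u, D u u = 0)
    (h1 : ∀ u v w, G.Adj u v → D u w ≤ D v w + 1)
    (h2 : ∀ u w, u ≠ w → ∃ v, G.Adj u v ∧ D v w + 1 = D u w) (u w : V) : G.dist u w = D u w := by
  have hlow : ∀ {u w : V} (p : G.Walk u w), D u w ≤ p.length := by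
    intro u w p
    induction p with
    | nil => rw [h0]; exact Nat.zero_le _
    | cons ha q ih =>
      rw [SimpleGraph.Walk.length_cons]
      exact (h1 _ _ _ ha).trans (Nat.succ_le_succ ih)
  have hup : ∀ (n : ℕ) (u w : V), D u w = n → ∃ p : G.Walk u w, p.length = n := by
    intro n
    induction n with
    | zero =>
      intro u w h
      by_cases huw : u = w
      · subst huw
        exact ⟨SimpleGraph.Walk.nil, rfl⟩
      · obtain ⟨v, _, hv⟩ := h2 u w huw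
        omega
    | succ n ih =>
      intro u w h
      by_cases huw : u = w
      · subst huw
        rw [h0] at h
        omega
      · obtain ⟨v, ha, hv⟩ := h2 u w huw
        obtain ⟨p, hp⟩ := ih v w (by omega)
        exact ⟨SimpleGraph.Walk.cons ha p, by rw [SimpleGraph.Walk.length_cons, hp]⟩
  obtain ⟨p, hp⟩ := hup _ u w rfl
  apply le_antisymm
  · rw [← hp]
    exact SimpleGraph.dist_le p
  · obtain ⟨q, hq⟩ := (SimpleGraph.Walk.reachable p).exists_walk_length_eq_dist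
    rw [← hq]
    exact hlow q

section join

variable {V₁ V₂ : Type} (G₁ : SimpleGraph V₁) (G₂ : SimpleGraph V₂) (r₁ : V₁) (r₂ : V₂)

/-- two graphs joined by an edge -/
def join : SimpleGraph (V₁ ⊕ V₂) := (G₁ ⊕g G₂) ⊔ SimpleGraph.edge (Sum.inl r₁) (Sum.inr r₂)

/-- the distances -/
noncomputable def Dj : V₁ ⊕ V₂ → V₁ ⊕ V₂ → ℕ
  | .inl u, .inl v => G₁.dist u v
  | .inr u, .inr v => G₂.dist u v
  | .inl u, .inr v => G₁.dist u r₁ + 1 + G₂.dist r₂ v
  | .inr u, .inl v => G₂.dist u r₂ + 1 + G₁.dist r₁ v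

theorem join_ll {u v : V₁} : (join G₁ G₂ r₁ r₂).Adj (.inl u) (.inl v) ↔ G₁.Adj u v := by
  simp [join, SimpleGraph.edge_adj]

theorem join_rr {u v : V₂} : (join G₁ G₂ r₁ r₂).Adj (.inr u) (.inr v) ↔ G₂.Adj u v := by
  simp [join, SimpleGraph.edge_adj]

theorem join_lr {u : V₁} {v : V₂} :
    (join G₁ G₂ r₁ r₂).Adj (.inl u) (.inr v) ↔ u = r₁ ∧ v = r₂ := by
  simp [join, SimpleGraph.edge_adj]

theorem join_rl {u : V₂} {v : V₁} :
    (join G₁ G₂ r₁ r₂).Adj (.inr u) (.inl v) ↔ u = r₂ ∧ v = r₁ := by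
  rw [SimpleGraph.adj_comm, join_lr]
  tauto

variable {G₁ G₂ r₁ r₂}

theorem dist_join (h₁ : G₁.Connected) (h₂ : G₂.Connected) (u w : V₁ ⊕ V₂) :
    (join G₁ G₂ r₁ r₂).dist u w = Dj G₁ G₂ r₁ r₂ u w := by
  have t1 : ∀ {u v : V₁} (w : V₁), G₁.Adj u v → G₁.dist u w ≤ G₁.dist v w + 1 := by
    intro u v w ha
    have := h₁.dist_triangle (u := u) (v := v) (w := w)
    have h3 := SimpleGraph.dist_eq_one_iff_adj.2 ha
    omega
  have t2 : ∀ {u v : V₂} (w : V₂), G₂.Adj u v → G₂.dist u w ≤ G₂.dist v w + 1 := by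
    intro u v w ha
    have := h₂.dist_triangle (u := u) (v := v) (w := w)
    have h3 := SimpleGraph.dist_eq_one_iff_adj.2 ha
    omega
  refine dist_char _ ?_ ?_ ?_ u w
  · rintro (u | u) <;> simp [Dj]
  · rintro (u | u) (v | v) (w | w) ha
    · exact t1 w ((join_ll _ _ _ _).1 ha)
    · have := t1 r₁ ((join_ll _ _ _ _).1 ha)
      simp only [Dj]
      omega
    · obtain ⟨rfl, rfl⟩ := (join_lr _ _ _ _).1 ha
      simp only [Dj, SimpleGraph.dist_self]
      omega
    · obtain ⟨rfl, rfl⟩ := (join_lr _ _ _ _).1 ha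
      simp only [Dj, SimpleGraph.dist_self]
      omega
    · obtain ⟨rfl, rfl⟩ := (join_rl _ _ _ _).1 ha
      simp only [Dj, SimpleGraph.dist_self]
      omega
    · obtain ⟨rfl, rfl⟩ := (join_rl _ _ _ _).1 ha
      simp only [Dj, SimpleGraph.dist_self]
      omega
    · have := t2 r₂ ((join_rr _ _ _ _).1 ha)
      simp only [Dj]
      omega
    · exact t2 w ((join_rr _ _ _ _).1 ha)
  · rintro (u | u) (w | w) hne
    · obtain ⟨v, ha, hv⟩ := exists_closer h₁ (u := u) (w := w) (fun h => hne (by rw [h]))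
      exact ⟨.inl v, (join_ll _ _ _ _).2 ha, hv⟩
    · by_cases hu : u = r₁
      · refine ⟨.inr r₂, (join_lr _ _ _ _).2 ⟨hu, rfl⟩, ?_⟩
        simp only [Dj, hu, SimpleGraph.dist_self]
        omega
      · obtain ⟨v, ha, hv⟩ := exists_closer h₁ hu
        refine ⟨.inl v, (join_ll _ _ _ _).2 ha, ?_⟩
        simp only [Dj]
        omega
    · by_cases hu : u = r₂
      · refine ⟨.inl r₁, (join_rl _ _ _ _).2 ⟨hu, rfl⟩, ?_⟩
        simp only [Dj, hu, SimpleGraph.dist_self]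
        omega
      · obtain ⟨v, ha, hv⟩ := exists_closer h₂ hu
        refine ⟨.inr v, (join_rr _ _ _ _).2 ha, ?_⟩
        simp only [Dj]
        omega
    · obtain ⟨v, ha, hv⟩ := exists_closer h₂ (u := u) (w := w) (fun h => hne (by rw [h]))
      exact ⟨.inr v, (join_rr _ _ _ _).2 ha, hv⟩

theorem isTree_join [Fintype V₁] [Fintype V₂] (h₁ : G₁.IsTree) (h₂ : G₂.IsTree) :
    (join G₁ G₂ r₁ r₂).IsTree := by
  rw [SimpleGraph.isTree_iff_connected_and_card]
  refine ⟨h₁.connected.sum_sup_edge h₂.connected, ?_⟩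
  have e1 := (SimpleGraph.isTree_iff_connected_and_card.1 h₁).2
  have e2 := (SimpleGraph.isTree_iff_connected_and_card.1 h₂).2
  have e3 : Nat.card (G₁ ⊕g G₂).edgeSet = Nat.card G₁.edgeSet + Nat.card G₂.edgeSet := by
    rw [Nat.card_congr SimpleGraph.edgeSetSumEquiv, Nat.card_sum]
  have e4 : Nat.card (join G₁ G₂ r₁ r₂).edgeSet = Nat.card (G₁ ⊕g G₂).edgeSet + 1 := by
    unfold join
    rw [SimpleGraph.edgeSet_sup, SimpleGraph.edgeSet_edge_of_ne (by simp)]
    have hd : s(Sum.inl r₁, Sum.inr r₂) ∉ (G₁ ⊕g G₂).edgeSet := by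
      simp [SimpleGraph.mem_edgeSet]
    rw [Set.union_singleton]
    have := Set.ncard_insert_of_notMem hd (Set.toFinite _)
    simpa [Set.ncard] using this
  rw [e4, e3, Nat.card_sum]
  omega

end join

/-- the level polynomial of a graph with a root -/
noncomputable def lev {V : Type} [Fintype V] (G : SimpleGraph V) (r : V) : ℚ[X] :=
  ∑ v : V, X ^ G.dist r v

theorem sum_offdiag {V : Type} [Fintype V] [DecidableEq V] (G : SimpleGraph V) :
    ∑ u : V, ∑ v : V, (if u = v then (0 : ℚ[X]) else X ^ G.dist u v) = 2 * wienerPoly G := by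
  unfold wienerPoly
  rw [← mul_assoc]
  have : (2 : ℚ[X]) * C (1 / 2) = 1 := by
    rw [show (2 : ℚ[X]) = C 2 from rfl, ← C_mul]
    norm_num
  rw [this, one_mul]
  refine sum_congr rfl fun u _ => sum_congr rfl fun v _ => ?_
  by_cases h : u = v <;> simp [h]

open Classical in
theorem wiener_join {V₁ V₂ : Type} [Fintype V₁] [Fintype V₂] {G₁ : SimpleGraph V₁}
    {G₂ : SimpleGraph V₂} {r₁ : V₁} {r₂ : V₂} (h₁ : G₁.Connected) (h₂ : G₂.Connected) :
    wienerPoly (join G₁ G₂ r₁ r₂) =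
      wienerPoly G₁ + wienerPoly G₂ + X * (lev G₁ r₁ * lev G₂ r₂) := by
  have key : ∑ u : V₁ ⊕ V₂, ∑ v : V₁ ⊕ V₂,
      (if u = v then (0 : ℚ[X]) else X ^ (join G₁ G₂ r₁ r₂).dist u v) =
      2 * (wienerPoly G₁ + wienerPoly G₂ + X * (lev G₁ r₁ * lev G₂ r₂)) := by
    simp only [Fintype.sum_sum_type, dist_join h₁ h₂, Dj, Sum.inl.injEq, Sum.inr.injEq,
      reduceCtorEq, if_false, sum_add_distrib]
    rw [sum_offdiag, sum_offdiag]
    have hA : ∑ x : V₁, ∑ y : V₂, (X : ℚ[X]) ^ (G₁.dist x r₁ + 1 + G₂.dist r₂ y) =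
        X * (lev G₁ r₁ * lev G₂ r₂) := by
      unfold lev
      rw [sum_mul_sum, mul_sum]
      refine sum_congr rfl fun x _ => ?_
      rw [mul_sum]
      refine sum_congr rfl fun y _ => ?_
      rw [SimpleGraph.dist_comm (u := x)]
      ring
    have hB : ∑ x : V₂, ∑ y : V₁, (X : ℚ[X]) ^ (G₂.dist x r₂ + 1 + G₁.dist r₁ y) =
        X * (lev G₁ r₁ * lev G₂ r₂) := by
      unfold lev
      rw [mul_comm (∑ v, (X : ℚ[X]) ^ G₁.dist r₁ v), sum_mul_sum, mul_sum]
      refine sum_congr rfl fun x _ => ?_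
      rw [mul_sum]
      refine sum_congr rfl fun y _ => ?_
      rw [SimpleGraph.dist_comm (u := x)]
      ring
    rw [hA, hB]
    ring
  rw [sum_offdiag] at key
  have h2 : (2 : ℚ[X]) ≠ 0 := two_ne_zero
  exact mul_left_cancel₀ h2 key

theorem lev_join {V₁ V₂ : Type} [Fintype V₁] [Fintype V₂] {G₁ : SimpleGraph V₁}
    {G₂ : SimpleGraph V₂} {r₁ : V₁} {r₂ : V₂} (h₁ : G₁.Connected) (h₂ : G₂.Connected) :
    lev (join G₁ G₂ r₁ r₂) (Sum.inl r₁) = lev G₁ r₁ + X * lev G₂ r₂ := by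
  unfold lev
  simp only [Fintype.sum_sum_type, dist_join h₁ h₂, Dj, SimpleGraph.dist_self]
  rw [mul_sum]
  congr 1
  refine sum_congr rfl fun y _ => ?_
  ring

theorem realise (t : RT) : ∃ (V : Type) (_ : Fintype V) (G : SimpleGraph V) (r : V), G.IsTree ∧
    lev G r = (RT.L t).map (Int.castRingHom ℚ) ∧
    wienerPoly G = (RT.W t).map (Int.castRingHom ℚ) := by
  induction t with
  | pt =>
    refine ⟨Unit, inferInstance, ⊥, (), SimpleGraph.IsTree.of_subsingleton, ?_, ?_⟩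
    · simp [lev, RT.L]
    · simp [wienerPoly, RT.W]
  | gr a b iha ihb =>
    obtain ⟨V₁, _, G₁, r₁, hT₁, hL₁, hW₁⟩ := iha
    obtain ⟨V₂, _, G₂, r₂, hT₂, hL₂, hW₂⟩ := ihb
    refine ⟨V₁ ⊕ V₂, inferInstance, join G₁ G₂ r₁ r₂, Sum.inl r₁, isTree_join hT₁ hT₂, ?_, ?_⟩
    · rw [lev_join hT₁.connected hT₂.connected, hL₁, hL₂, RT.L]
      simp
    · rw [wiener_join hT₁.connected hT₂.connected, hL₁, hL₂, hW₁, hW₂, RT.W]
      simp

theorem t_A : S_A := by
  intro t
  obtain ⟨V, i, G, r, h1, _, h2⟩ := realise t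
  exact ⟨V, i, G, h1, h2⟩

end Pool.Agent.Helper96.WT
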