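import Pool.Agent.Helper96.WT.Stm

/-!
# The move lemma
-/

set_option autoImplicit false

namespace Pool.Agent.Helper96.WT

open Polynomial Finset

theorem sum_coeff_le {p : ℤ[X]} (hp : ∀ k, 0 ≤ p.coeff k) (S : Finset ℕ) :
    ∑ k ∈ S, p.coeff k ≤ p.eval 1 := by
  rw [eval_eq_sum_range' (n := max (p.natDegree + 1) (S.sup id + 1)) (by
    exact lt_of_lt_of_le (Nat.lt_succ_self _) (le_max_left _ _))]
  simp only [one_pow, mul_one]
  apply Finset.sum_le_sum_of_subset_of_nonneg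
  · intro k hk
    rw [mem_range]
    have : k ≤ S.sup id := Finset.le_sup (f := id) hk
    exact lt_of_lt_of_le (Nat.lt_succ_of_le this) (le_max_right _ _)
  · intro k _ _
    exact hp k

/-- level polynomial from the spine vertex `j` -/
noncomputable def lev (h : ℕ) (l : ℕ → ℤ[X]) (j : ℕ) : ℤ[X] :=
  ∑ i ∈ range (h + 1), X ^ (Nat.dist i j) * l i

theorem lev_one (h : ℕ) (l : ℕ → ℤ[X]) (j : ℕ) :
    (lev h l j).eval 1 = ∑ i ∈ range (h + 1), (l i).eval 1 := by
  unfold lev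
  rw [eval_finsetSum]
  exact Finset.sum_congr rfl fun i _ => by simp

theorem lev_nonneg (h : ℕ) (l : ℕ → ℤ[X]) (hl : ∀ i k, 0 ≤ (l i).coeff k) (j k : ℕ) :
    0 ≤ (lev h l j).coeff k := by
  unfold lev
  rw [finsetSum_coeff]
  apply Finset.sum_nonneg
  intro i _
  rw [coeff_X_pow_mul']
  split_ifs
  · exact hl i _
  · exact le_rfl

theorem lev_hub (h : ℕ) (l : ℕ → ℤ[X]) (hl : ∀ i k, 0 ≤ (l i).coeff k) (j : ℕ) :
    (l 0).coeff 1 ≤ (lev h l j).coeff (j + 1) := by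
  unfold lev
  rw [finsetSum_coeff]
  have h1 := Finset.single_le_sum (f := fun i => (X ^ (Nat.dist i j) * l i : ℤ[X]).coeff (j + 1))
    (s := range (h + 1)) (fun i _ => by
      show 0 ≤ (X ^ (Nat.dist i j) * l i : ℤ[X]).coeff (j + 1)
      rw [coeff_X_pow_mul']
      split_ifs
      · exact hl i _
      · exact le_rfl) (mem_range.2 (Nat.succ_pos h))
  refine le_trans ?_ h1
  show (l 0).coeff 1 ≤ (X ^ (Nat.dist 0 j) * l 0 : ℤ[X]).coeff (j + 1)
  rw [Nat.dist_zero_left, coeff_X_pow_mul', if_pos (by omega), Nat.add_sub_cancel_left]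

/-- the quadratic form -/
noncomputable def qf (h : ℕ) (u v : ℕ → ℤ[X]) : ℤ[X] :=
  ∑ i ∈ range (h + 1), ∑ j ∈ range (h + 1), X ^ (Nat.dist i j) * (u i * v j)

theorem qf_add (h : ℕ) (u d : ℕ → ℤ[X]) :
    qf h (fun i => u i + d i) (fun i => u i + d i) = qf h u u + 2 * qf h d u + qf h d d := by
  have h1 : qf h u d = qf h d u := by
    unfold qf
    rw [Finset.sum_comm]
    refine Finset.sum_congr rfl fun i _ => Finset.sum_congr rfl fun j _ => ?_
    rw [Nat.dist_comm]; ring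
  have h2 : qf h (fun i => u i + d i) (fun i => u i + d i) = qf h u u + qf h u d + qf h d u + qf h d d := by
    unfold qf
    simp only [← Finset.sum_add_distrib]
    refine Finset.sum_congr rfl fun i _ => Finset.sum_congr rfl fun j _ => ?_
    ring
  rw [h2, h1]; ring

theorem qf_single (h : ℕ) (l : ℕ → ℤ[X]) (a b : ℕ) (ha : a ≤ h) (hb : b ≤ h) (d : ℕ → ℤ[X])
    (hd : ∀ i, d i = (if i = a then X else 0) - if i = b then X else 0) :
    qf h d l = X * (lev h l a - lev h l b) := by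
  have e : qf h d l = ∑ i ∈ range (h + 1), d i * lev h l i := by
    unfold qf lev
    refine Finset.sum_congr rfl fun i _ => ?_
    rw [Finset.mul_sum]
    refine Finset.sum_congr rfl fun j _ => ?_
    rw [Nat.dist_comm]; ring
  rw [e]
  simp only [hd, sub_mul, ite_mul, zero_mul, Finset.sum_sub_distrib]
  rw [Finset.sum_ite_eq', Finset.sum_ite_eq', if_pos (by rw [mem_range]; omega),
    if_pos (by rw [mem_range]; omega)]
  ring

theorem lev_single (h : ℕ) (a b : ℕ) (ha : a ≤ h) (hb : b ≤ h) (d : ℕ → ℤ[X])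
    (hd : ∀ i, d i = (if i = a then X else 0) - if i = b then X else 0) (j : ℕ) :
    lev h d j = X ^ (Nat.dist a j) * X - X ^ (Nat.dist b j) * X := by
  unfold lev
  simp only [hd, mul_sub, mul_ite, mul_zero, Finset.sum_sub_distrib]
  rw [Finset.sum_ite_eq', Finset.sum_ite_eq', if_pos (by rw [mem_range]; omega),
    if_pos (by rw [mem_range]; omega)]

theorem twoW_eq (h c : ℕ) (Γ E0 : ℤ[X]) (m : ℕ → ℕ) : twoW h c Γ E0 m =
    qf h (ell c Γ m) (ell c Γ m) - C ((h : ℤ) + 1) - X ^ 2 * C (∑ i ∈ range (h + 1), (m i : ℤ)) + E0 := rfl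

/-- **Move**: one leaf is moved from the spine vertex `i` to the spine vertex `j`. -/
theorem twoW_move (h c : ℕ) (Γ E0 : ℤ[X]) (m m' : ℕ → ℕ) (i j : ℕ) (hij : i < j) (hj : j ≤ h)
    (hm : ∀ k, (m' k : ℤ) = m k + (if k = j then 1 else 0) - if k = i then 1 else 0) :
    twoW h c Γ E0 m' = twoW h c Γ E0 m +
      2 * (X * (lev h (ell c Γ m) j - lev h (ell c Γ m) i)) + 2 * (X ^ 2 - X ^ (j - i + 2)) := by
  obtain ⟨d, hd⟩ : ∃ d : ℕ → ℤ[X], d = fun k => (if k = j then X else 0) - if k = i then X else 0 := ⟨_, rfl⟩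
  have hd' : ∀ k, d k = (if k = j then X else 0) - if k = i then X else 0 := fun k => by rw [hd]
  have h1 : ell c Γ m' = fun k => ell c Γ m k + d k := by
    funext k
    unfold ell
    rw [hd', hm k]
    have e : (C ((m k : ℤ) + (if k = j then 1 else 0) - if k = i then 1 else 0) : ℤ[X]) * X =
        C (m k : ℤ) * X + ((if k = j then X else 0) - if k = i then X else 0) := by
      split_ifs <;> simp <;> ring
    rw [e]
    ring
  have h2 : ∑ k ∈ range (h + 1), (m' k : ℤ) = ∑ k ∈ range (h + 1), (m k : ℤ) := by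
    simp only [hm, Finset.sum_sub_distrib, Finset.sum_add_distrib]
    rw [Finset.sum_ite_eq', Finset.sum_ite_eq', if_pos (by rw [mem_range]; omega),
      if_pos (by rw [mem_range]; omega)]
    ring
  have h3 : qf h d d = 2 * (X ^ 2 - X ^ (j - i + 2)) := by
    rw [qf_single h d j i hj (by omega) d hd', lev_single h j i hj (by omega) d hd',
      lev_single h j i hj (by omega) d hd', Nat.dist_self, Nat.dist_self]
    have e1 : Nat.dist i j = j - i := by unfold Nat.dist; omega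
    have e2 : Nat.dist j i = j - i := by unfold Nat.dist; omega
    rw [e1, e2]
    ring
  rw [twoW_eq, twoW_eq, h1, h2, qf_add, qf_single h _ j i hj (by omega) d hd', h3]
  ring

theorem ell_nonneg (c : ℕ) (Γ : ℤ[X]) (hΓ : ∀ k, 0 ≤ Γ.coeff k) (m : ℕ → ℕ) (i k : ℕ) :
    0 ≤ (ell c Γ m i).coeff k := by
  unfold ell
  rw [coeff_add, coeff_add, coeff_one, coeff_C_mul, coeff_X]
  have h1 : (0 : ℤ) ≤ m i := by positivity
  have h2 := hΓ k
  split_ifs <;> simp <;> linarith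

theorem ell_one (c : ℕ) (Γ : ℤ[X]) (m : ℕ → ℕ) (i : ℕ) :
    (ell c Γ m i).eval 1 = 1 + (m i : ℤ) + if i = c then Γ.eval 1 else 0 := by
  unfold ell
  split_ifs <;> simp

theorem ell_zero_one (c : ℕ) (hc : c ≠ 0) (Γ : ℤ[X]) (m : ℕ → ℕ) :
    (ell c Γ m 0).coeff 1 = m 0 := by
  unfold ell
  rw [if_neg (Ne.symm hc), add_zero, coeff_add, coeff_one, coeff_C_mul, coeff_X]
  simp

/-- The move lemma: the change of the coefficients of degree at least `4`. -/
theorem move (h c : ℕ) (hc : c ≠ 0) (Γ E0 : ℤ[X]) (hΓ : ∀ k, 0 ≤ Γ.coeff k) (m m' : ℕ → ℕ)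
    (i j : ℕ) (hi : i ≤ 1) (hij : i < j) (hj2 : 2 ≤ j) (hj : j ≤ h)
    (hm : ∀ k, (m' k : ℤ) = m k + (if k = j then 1 else 0) - if k = i then 1 else 0)
    (n : ℤ) (hn : ∑ k ∈ range (h + 1), (ell c Γ m k).eval 1 = n) :
    ∑ k ∈ Icc 2 h, |(twoW h c Γ E0 m').coeff (k + 2) - (twoW h c Γ E0 m).coeff (k + 2) -
      (if k = j then 2 * n else 0)| ≤ 6 * (n - m 0) + 2 := by
  have hl := ell_nonneg c Γ hΓ m
  obtain ⟨Yj, hYj⟩ : ∃ Y, Y = lev h (ell c Γ m) j := ⟨_, rfl⟩
  obtain ⟨Yi, hYi⟩ : ∃ Y, Y = lev h (ell c Γ m) i := ⟨_, rfl⟩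
  have nj : ∀ k, 0 ≤ Yj.coeff k := by rw [hYj]; exact lev_nonneg h _ hl j
  have ni : ∀ k, 0 ≤ Yi.coeff k := by rw [hYi]; exact lev_nonneg h _ hl i
  have oj : Yj.eval 1 = n := by rw [hYj, lev_one, hn]
  have oi : Yi.eval 1 = n := by rw [hYi, lev_one, hn]
  have uj : (m 0 : ℤ) ≤ Yj.coeff (j + 1) := by
    rw [hYj, ← ell_zero_one c hc Γ m]; exact lev_hub h _ hl j
  have ui : (m 0 : ℤ) ≤ Yi.coeff (i + 1) := by
    rw [hYi, ← ell_zero_one c hc Γ m]; exact lev_hub h _ hl i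
  have hdiff : ∀ k, 2 ≤ k → (twoW h c Γ E0 m').coeff (k + 2) - (twoW h c Γ E0 m).coeff (k + 2) =
      2 * Yj.coeff (k + 1) - 2 * Yi.coeff (k + 1) - if k = j - i then 2 else 0 := by
    intro k hk
    rw [twoW_move h c Γ E0 m m' i j hij hj hm, ← hYj, ← hYi]
    have e1 : (2 * (X * (Yj - Yi)) : ℤ[X]) = C 2 * (X * (Yj - Yi)) := rfl
    have e2 : (2 * (X ^ 2 - X ^ (j - i + 2)) : ℤ[X]) = C 2 * (X ^ 2 - X ^ (j - i + 2)) := rfl
    rw [e1, e2, coeff_add, coeff_add, coeff_C_mul, coeff_C_mul, coeff_X_mul, coeff_sub, coeff_sub,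
      coeff_X_pow, coeff_X_pow, if_neg (by omega)]
    by_cases hkj : k = j - i
    · rw [if_pos (by omega), if_pos hkj]; ring
    · rw [if_neg (by omega), if_neg hkj]; ring
  have hterm : ∀ k ∈ Icc 2 h, |(twoW h c Γ E0 m').coeff (k + 2) - (twoW h c Γ E0 m).coeff (k + 2) -
      (if k = j then 2 * n else 0)| ≤ (2 * Yj.coeff (k + 1) + (if k = j then 2 * n - 4 * Yj.coeff (j + 1) else 0)) +
        2 * Yi.coeff (k + 1) + if k = j - i then 2 else 0 := by
    intro k hk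
    rw [mem_Icc] at hk
    rw [hdiff k hk.1]
    have a1 := nj (k + 1)
    have a2 := ni (k + 1)
    have a3 : Yj.coeff (j + 1) ≤ n := by
      have := sum_coeff_le nj {j + 1}
      rwa [sum_singleton, oj] at this
    by_cases hkj : k = j
    · rw [if_pos hkj, if_pos hkj, hkj]
      have a4 := nj (j + 1)
      have a5 := ni (j + 1)
      split_ifs <;> rw [abs_le] <;> constructor <;> linarith
    · rw [if_neg hkj, if_neg hkj]
      split_ifs <;> rw [abs_le] <;> constructor <;> linarith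
  refine (Finset.sum_le_sum hterm).trans ?_
  rw [Finset.sum_add_distrib, Finset.sum_add_distrib, Finset.sum_add_distrib, ← Finset.mul_sum, ← Finset.mul_sum,
    Finset.sum_ite_eq', if_pos (mem_Icc.2 ⟨hj2, hj⟩)]
  have s1 : ∑ k ∈ Icc 2 h, Yj.coeff (k + 1) ≤ n := by
    have := sum_coeff_le nj ((Icc 2 h).map (addRightEmbedding 1))
    rwa [sum_map, oj] at this
  have s2 : ∑ k ∈ Icc 2 h, Yi.coeff (k + 1) + m 0 ≤ n := by
    have h1 := sum_coeff_le ni (insert (i + 1) ((Icc 2 h).map (addRightEmbedding 1)))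
    rw [sum_insert, sum_map, oi] at h1
    · have h2 : ∑ k ∈ Icc 2 h, Yi.coeff (addRightEmbedding 1 k) = ∑ k ∈ Icc 2 h, Yi.coeff (k + 1) := rfl
      rw [h2] at h1
      linarith
    · rw [mem_map]
      rintro ⟨k, hk, hk2⟩
      rw [mem_Icc] at hk
      have : k + 1 = i + 1 := hk2
      omega
  have s3 : (∑ k ∈ Icc 2 h, if k = j - i then (2 : ℤ) else 0) ≤ 2 := by
    rw [Finset.sum_ite_eq']
    split_ifs <;> norm_num
  linarith

end Pool.Agent.Helper96.WT
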