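import Pool.Agent.Helper96.WT.C2

/-!
# Bounds for the coefficients of `twoW`
-/

set_option autoImplicit false

namespace Pool.Agent.Helper96.WT

open Polynomial Finset

/-- pairs of leaves at spine distance `j` -/
noncomputable def SS (h : ℕ) (m : ℕ → ℕ) (j : ℕ) : ℤ :=
  ∑ p ∈ range (h + 1), ∑ q ∈ range (h + 1), if Nat.dist p q = j then (m p : ℤ) * m q else 0

theorem SS_eq (h : ℕ) (m : ℕ → ℕ) (j : ℕ) (hj : 1 ≤ j) (hjh : j ≤ h) :
    SS h m j = 2 * ∑ i ∈ range (h + 1 - j), (m i : ℤ) * m (i + j) := by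
  have h1 : ∀ p q : ℕ, (if Nat.dist p q = j then (m p : ℤ) * m q else 0) =
      (if q = p + j then (m p : ℤ) * m q else 0) + if p = q + j then (m p : ℤ) * m q else 0 := by
    intro p q
    unfold Nat.dist
    by_cases h2 : q = p + j
    · rw [if_pos (by omega), if_pos h2, if_neg (by omega), add_zero]
    · by_cases h3 : p = q + j
      · rw [if_pos (by omega), if_neg h2, if_pos h3, zero_add]
      · rw [if_neg (by omega), if_neg h2, if_neg h3, zero_add]
  have h2 : ∑ p ∈ range (h + 1), ∑ q ∈ range (h + 1), (if q = p + j then (m p : ℤ) * m q else 0) =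
      ∑ i ∈ range (h + 1 - j), (m i : ℤ) * m (i + j) := by
    simp only [Finset.sum_ite_eq', mem_range]
    rw [← Finset.sum_filter]
    apply Finset.sum_congr
    · ext p
      simp only [mem_filter, mem_range]
      omega
    · intro p _; rfl
  have h3 : ∑ p ∈ range (h + 1), ∑ q ∈ range (h + 1), (if p = q + j then (m p : ℤ) * m q else 0) =
      ∑ i ∈ range (h + 1 - j), (m i : ℤ) * m (i + j) := by
    rw [Finset.sum_comm, ← h2]
    refine Finset.sum_congr rfl fun p _ => Finset.sum_congr rfl fun q _ => ?_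
    split_ifs
    · ring
    · rfl
  unfold SS
  simp only [h1, Finset.sum_add_distrib]
  rw [h2, h3]; ring

theorem prod_coeff_le {p q : ℤ[X]} (hp : ∀ k, 0 ≤ p.coeff k) (hq : ∀ k, 0 ≤ q.coeff k) (k : ℕ) :
    0 ≤ (p * q).coeff k ∧ (p * q).coeff k ≤ p.eval 1 * q.eval 1 := by
  have h1 : ∀ k, 0 ≤ (p * q).coeff k := by
    intro k
    rw [coeff_mul]
    exact Finset.sum_nonneg fun x _ => mul_nonneg (hp _) (hq _)
  refine ⟨h1 k, ?_⟩
  have := sum_coeff_le h1 {k}
  rwa [sum_singleton, eval_mul] at this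

/-- the part of `ell` without the leaves -/
noncomputable def kap (c : ℕ) (Γ : ℤ[X]) (i : ℕ) : ℤ[X] := 1 + if i = c then Γ else 0

theorem kap_nonneg (c : ℕ) (Γ : ℤ[X]) (hΓ : ∀ k, 0 ≤ Γ.coeff k) (i k : ℕ) : 0 ≤ (kap c Γ i).coeff k := by
  unfold kap
  rw [coeff_add, coeff_one]
  have h2 := hΓ k
  split_ifs <;> simp <;> linarith

theorem kap_one (c : ℕ) (Γ : ℤ[X]) (i : ℕ) :
    (kap c Γ i).eval 1 = 1 + if i = c then Γ.eval 1 else 0 := by
  unfold kap
  split_ifs <;> simp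

theorem ell_kap (c : ℕ) (Γ : ℤ[X]) (m : ℕ → ℕ) (i : ℕ) : ell c Γ m i = C (m i : ℤ) * X + kap c Γ i := by
  unfold ell kap; ring

theorem coef_bounds (h c : ℕ) (hch : c ≤ h) (Γ E0 : ℤ[X]) (hΓ : ∀ k, 0 ≤ Γ.coeff k) (m : ℕ → ℕ) (j : ℕ)
    (hj : 2 ≤ j) (M K : ℤ) (hM : ∑ i ∈ range (h + 1), (m i : ℤ) = M) (hK : (h : ℤ) + 1 + Γ.eval 1 = K) :
    SS h m j ≤ (twoW h c Γ E0 m).coeff (j + 2) - E0.coeff (j + 2) ∧
      (twoW h c Γ E0 m).coeff (j + 2) - E0.coeff (j + 2) ≤ SS h m j + 2 * M * K + K ^ 2 := by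
  have e1 : (twoW h c Γ E0 m).coeff (j + 2) - E0.coeff (j + 2) =
      ∑ p ∈ range (h + 1), ∑ q ∈ range (h + 1),
        (X ^ (Nat.dist p q) * (ell c Γ m p * ell c Γ m q) : ℤ[X]).coeff (j + 2) := by
    unfold twoW
    rw [coeff_add, coeff_sub, coeff_sub, coeff_C, if_neg (by omega), coeff_mul_C, coeff_X_pow, if_neg (by omega),
      finsetSum_coeff]
    simp only [finsetSum_coeff]
    ring
  have hk := kap_nonneg c Γ hΓ
  have key : ∀ p q : ℕ, (if Nat.dist p q = j then (m p : ℤ) * m q else 0) ≤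
      (X ^ (Nat.dist p q) * (ell c Γ m p * ell c Γ m q) : ℤ[X]).coeff (j + 2) ∧
      (X ^ (Nat.dist p q) * (ell c Γ m p * ell c Γ m q) : ℤ[X]).coeff (j + 2) ≤
        (if Nat.dist p q = j then (m p : ℤ) * m q else 0) + (m p : ℤ) * (kap c Γ q).eval 1 +
          (m q : ℤ) * (kap c Γ p).eval 1 + (kap c Γ p).eval 1 * (kap c Γ q).eval 1 := by
    intro p q
    have e2 : (X ^ (Nat.dist p q) * (ell c Γ m p * ell c Γ m q) : ℤ[X]) =
        C ((m p : ℤ) * m q) * X ^ (Nat.dist p q + 2) + C (m p : ℤ) * (X ^ (Nat.dist p q + 1) * kap c Γ q) +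
        C (m q : ℤ) * (X ^ (Nat.dist p q + 1) * kap c Γ p) + X ^ (Nat.dist p q) * (kap c Γ p * kap c Γ q) := by
      rw [ell_kap, ell_kap, C_mul]; ring
    have mp : (0 : ℤ) ≤ m p := by positivity
    have mq : (0 : ℤ) ≤ m q := by positivity
    have b1 : ∀ (r : ℤ[X]) (s k : ℕ), (∀ k, 0 ≤ r.coeff k) → 0 ≤ (X ^ s * r).coeff k ∧
        (X ^ s * r).coeff k ≤ r.eval 1 := by
      intro r s k hr
      have := prod_coeff_le (p := X ^ s) (q := r) (fun k => by rw [coeff_X_pow]; split_ifs <;> norm_num) hr k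
      simpa using this
    have b2 := b1 (kap c Γ q) (Nat.dist p q + 1) (j + 2) (hk q)
    have b3 := b1 (kap c Γ p) (Nat.dist p q + 1) (j + 2) (hk p)
    have b4 := b1 (kap c Γ p * kap c Γ q) (Nat.dist p q) (j + 2)
      (fun k => (prod_coeff_le (hk p) (hk q) k).1)
    rw [eval_mul] at b4
    rw [e2, coeff_add, coeff_add, coeff_add, coeff_C_mul, coeff_C_mul, coeff_C_mul, coeff_X_pow]
    have e3 : (m p : ℤ) * m q * (if j + 2 = Nat.dist p q + 2 then 1 else 0) =
        if Nat.dist p q = j then (m p : ℤ) * m q else 0 := by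
      by_cases h3 : Nat.dist p q = j
      · rw [if_pos (by omega), if_pos h3]; ring
      · rw [if_neg (by omega), if_neg h3]; ring
    rw [e3]
    constructor
    · nlinarith [mul_nonneg mp b2.1, mul_nonneg mq b3.1, b4.1]
    · nlinarith [mul_le_mul_of_nonneg_left b2.2 mp, mul_le_mul_of_nonneg_left b3.2 mq, b4.2]
  have hKs : ∑ i ∈ range (h + 1), (kap c Γ i).eval 1 = K := by
    simp only [kap_one, Finset.sum_add_distrib]
    rw [Finset.sum_ite_eq', if_pos (by rw [mem_range]; omega), ← hK]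
    simp
  rw [e1]
  constructor
  · unfold SS
    exact Finset.sum_le_sum fun p _ => Finset.sum_le_sum fun q _ => (key p q).1
  · refine (Finset.sum_le_sum fun p _ => Finset.sum_le_sum fun q _ => (key p q).2).trans ?_
    simp only [Finset.sum_add_distrib, ← Finset.mul_sum, ← Finset.sum_mul]
    rw [hKs, hM]
    unfold SS
    apply le_of_eq
    ring

end Pool.Agent.Helper96.WT
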