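import Pool.Agent.Helper83.WTC.C4

/-! # Part C: the approximate solution (helper83) -/

set_option autoImplicit false

namespace Pool.Agent.Helper96.WT

open Polynomial Finset Pool.Agent.Helper83.WTC

/-- **Part C.** -/
theorem t_C : S_C := by
  intro g hg C0
  obtain ⟨c, rfl⟩ : ∃ c, g = c + 1 := ⟨g - 1, by omega⟩
  have hc1 : 1 ≤ c := by omega
  rw [show 2 * (c + 1) - 2 = 2 * c by omega, show c + 1 - 1 = c by omega]
  obtain ⟨h, hh⟩ : ∃ h, h = 2 * c := ⟨_, rfl⟩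
  rw [← hh]
  have hh2 : 2 ≤ h := by omega
  have hh1 : 1 ≤ h := by omega
  obtain ⟨ε, hε⟩ : ∃ ε, ε = (eP h (8 * h)).coeff h := ⟨_, rfl⟩
  have hε0 : 0 < ε := by rw [hε]; exact eP_coeff_pos h h hh1 le_rfl
  have hε1 : ε ≤ 1 := by rw [hε]; exact eP_coeff_le_one h h hh1
  obtain ⟨δ, hδ⟩ : ∃ δ, δ = ε / 1000 := ⟨_, rfl⟩
  have hδ0 : 0 < δ := by rw [hδ]; positivity
  have hδ1 : δ ≤ 1 := by rw [hδ]; linarith
  refine ⟨⌈((C0 : ℚ) + h + 17) / δ ^ 2⌉₊, ?_⟩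
  intro n s hn hs1 hs2 hpar Γ E0 hΓ hKsq hE0
  have hΓ' : NN Γ := hΓ
  have hnq : ((C0 : ℚ) + h + 17) / δ ^ 2 ≤ n := (Nat.le_ceil _).trans (by exact_mod_cast hn)
  have hnδ2 : (C0 : ℚ) + h + 17 ≤ δ ^ 2 * n := by
    rw [div_le_iff₀ (by positivity)] at hnq
    linarith
  have hn0 : (0 : ℚ) ≤ n := Nat.cast_nonneg _
  have hC0 : (0 : ℚ) ≤ C0 := Nat.cast_nonneg _
  have hh0 : (0 : ℚ) ≤ h := Nat.cast_nonneg _
  have hδ2 : δ ^ 2 * n ≤ δ * n := by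
    have : δ ^ 2 ≤ δ := by nlinarith
    exact mul_le_mul_of_nonneg_right this hn0
  have hδn : δ * n ≤ n := by nlinarith
  have hG0 : (0 : ℤ) ≤ Γ.eval 1 := hΓ'.eval_nonneg
  -- the size of `K`
  have hK : (h : ℚ) + 1 + (Γ.eval 1 : ℤ) ≤ δ * n := by
    have h1 : ((h : ℚ) + 1 + (Γ.eval 1 : ℤ)) ^ 2 ≤ C0 * n := by exact_mod_cast hKsq
    have h2 : ((h : ℚ) + 1 + (Γ.eval 1 : ℤ)) ^ 2 ≤ (δ * n) ^ 2 := by
      calc ((h : ℚ) + 1 + (Γ.eval 1 : ℤ)) ^ 2 ≤ C0 * n := h1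
        _ ≤ (δ ^ 2 * n) * n := mul_le_mul_of_nonneg_right (by linarith) hn0
        _ = _ := by ring
    have hG0' : (0 : ℚ) ≤ (Γ.eval 1 : ℤ) := by exact_mod_cast hG0
    exact (pow_le_pow_iff_left₀ (by positivity) (by positivity) two_ne_zero).mp h2
  -- the two linear equations
  obtain ⟨σ, hσ⟩ : ∃ σ : ℤ, σ = (-1) ^ c * Γ.eval (-1) := ⟨_, rfl⟩
  have hσabs : |σ| ≤ Γ.eval 1 := by
    rw [hσ, abs_mul, abs_pow, abs_neg, abs_one, one_pow, one_mul]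
    exact hΓ'.abs_eval_neg_one
  have hσ1 : σ ≤ Γ.eval 1 := (le_abs_self _).trans hσabs
  have hσ2 : -σ ≤ Γ.eval 1 := (neg_le_abs _).trans hσabs
  have hσcases : σ = Γ.eval (-1) ∨ σ = -Γ.eval (-1) := by
    rcases neg_one_pow_eq_or ℤ c with h1 | h1
    · left; rw [hσ, h1]; ring
    · right; rw [hσ, h1]; ring
  have hpg := parity_eval Γ
  have hδ1000 : δ * n ≤ 1 / 1000 * n := by
    have : δ ≤ 1 / 1000 := by rw [hδ]; linarith
    exact mul_le_mul_of_nonneg_right this hn0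
  have hKint : 1000 * ((h : ℤ) + 1 + Γ.eval 1) ≤ n := by
    have : (1000 : ℚ) * ((h : ℚ) + 1 + (Γ.eval 1 : ℤ)) ≤ n := by linarith
    exact_mod_cast this
  have hs1' : 87 * (n : ℤ) ≤ 100 * s := by exact_mod_cast hs1
  have hs2' : 100 * (s : ℤ) ≤ 91 * n := by exact_mod_cast hs2
  obtain ⟨NE, hNE⟩ : ∃ NE : ℕ, 2 * (NE : ℤ) = n + s - h - Γ.eval 1 + σ := by
    obtain ⟨x, hx⟩ : ∃ x : ℤ, n + s - h - Γ.eval 1 + σ = 2 * x := by
      refine ⟨(n + s - h - Γ.eval 1 + σ) / 2, ?_⟩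
      rcases hσcases with h1 | h1 <;> omega
    lift x to ℕ using (by omega)
    exact ⟨x, hx.symm⟩
  obtain ⟨NO, hNO⟩ : ∃ NO : ℕ, 2 * (NO : ℤ) = n - s - h - 2 - Γ.eval 1 - σ := by
    obtain ⟨x, hx⟩ : ∃ x : ℤ, n - s - h - 2 - Γ.eval 1 - σ = 2 * x := by
      refine ⟨(n - s - h - 2 - Γ.eval 1 - σ) / 2, ?_⟩
      rcases hσcases with h1 | h1 <;> omega
    lift x to ℕ using (by omega)
    exact ⟨x, hx.symm⟩
  have htot : (h : ℤ) + 1 + NE + NO + Γ.eval 1 = n := by linarith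
  have b1 : 93 * (n : ℤ) ≤ 100 * NE := by omega
  have b2 : 43 * (n : ℤ) ≤ 1000 * NO := by omega
  have b3 : 1000 * (NO : ℤ) ≤ 65 * n := by omega
  have D : Dat h n ε ((h : ℚ) + 1 + (Γ.eval 1 : ℤ)) C0 := by
    rw [hδ] at hδ2 hδn hK hnδ2
    refine ⟨hh2, ?_, hε0, hε1, fun j hj => ?_, hK, ?_, ?_, ?_, ?_⟩
    · have : (16 : ℚ) ≤ n := by linarith
      exact_mod_cast this
    · rw [hε]; exact eP_coeff_anti h j h hh1 hj
    · have hG0' : (0 : ℚ) ≤ (Γ.eval 1 : ℤ) := by exact_mod_cast hG0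
      positivity
    · linarith
    · linarith
    · linarith
  obtain ⟨m, hm1, hm2, hm3⟩ := core h c n NE NO ε C0 Γ E0 hΓ' (by omega) D hE0 htot
    (by
      have : (93 : ℚ) * n ≤ 100 * NE := by exact_mod_cast b1
      linarith)
    (by
      have : (43 : ℚ) * n ≤ 1000 * NO := by exact_mod_cast b2
      linarith)
    (by
      have : (1000 : ℚ) * NO ≤ 65 * n := by exact_mod_cast b3
      linarith)
  refine ⟨m, ?_, ?_, hm3⟩
  · rw [Finset.sum_add_distrib, hm1]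
    simp
    linarith
  · have h1 : ∑ i ∈ range (h + 1), (-1 : ℤ) ^ i * (1 - (m i : ℤ)) =
        ∑ i ∈ range (h + 1), (-1 : ℤ) ^ i - ∑ i ∈ range (h + 1), (-1) ^ i * (m i : ℤ) := by
      rw [← Finset.sum_sub_distrib]
      exact Finset.sum_congr rfl fun _ _ => by ring
    have h2 : ∑ i ∈ range (h + 1), (-1 : ℤ) ^ i = 1 := by rw [hh]; exact alt_one c
    rw [h1, hm2, h2, ← hσ]
    linarith

end Pool.Agent.Helper96.WT
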