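import Pool.Agent.Helper96.WT.Stm

/-!
# Part D: the targets, from a Pell equation (helper22)
-/

set_option autoImplicit false

namespace Pool.Agent.Helper96.WT

open Polynomial Finset

namespace PD

lemma not_sq_sub_one {m : ℤ} (hm : 2 ≤ m) : ¬ IsSquare (m ^ 2 - 1) := by
  rintro ⟨t, ht⟩
  have h1 : |t| ^ 2 = m ^ 2 - 1 := by rw [sq_abs]; linarith [sq t]
  have h0 := abs_nonneg t
  rcases lt_or_ge |t| m with h | h
  · have : |t| ≤ m - 1 := by omega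
    nlinarith
  · nlinarith

lemma not_sq_mul {d M : ℤ} (hd : ¬ IsSquare d) (hM : M ≠ 0) : ¬ IsSquare (d * M ^ 2) := by
  rintro ⟨t, ht⟩
  have h1 : M ^ 2 ∣ t ^ 2 := ⟨d, by linarith [sq t]⟩
  rw [Int.pow_dvd_pow_iff (by norm_num)] at h1
  obtain ⟨u, rfl⟩ := h1
  apply hd
  refine ⟨u, ?_⟩
  have h2 : M ^ 2 * d = M ^ 2 * (u * u) := by linarith [mul_comm d (M ^ 2), sq M]
  exact mul_left_cancel₀ (pow_ne_zero 2 hM) h2

/-- lower bound of the ratio -/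
lemma ratio_lower (q : ℕ) (a : ℤ) (ha : a = 16 * q + 16) :
    49 * ((a + 1) ^ (2 * q + 1) * (a + 2)) ≤ 64 * ((a - 1) ^ (2 * q + 1) * a) := by
  have ha16 : (16 : ℤ) ≤ a := by rw [ha]; have : (0 : ℤ) ≤ q := Int.natCast_nonneg q; linarith
  have hr : (16 : ℝ) ≤ (a : ℝ) := by exact_mod_cast ha16
  have ha' : (a : ℝ) = 16 * q + 16 := by rw [ha]; push_cast; ring
  set b : ℝ := (a : ℝ) with hb
  have hb0 : 0 < b := by linarith
  have key : 49 * ((b + 1) ^ (2 * q + 1) * (b + 2)) ≤ 64 * ((b - 1) ^ (2 * q + 1) * b) := by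
    -- x = (b-1)/b
    have h1 : (7 : ℝ) / 8 ≤ ((b - 1) / b) ^ (2 * q + 2) := by
      have h := one_add_mul_sub_le_pow (R := ℝ) (a := (b - 1) / b)
        (by rw [le_div_iff₀ hb0]; linarith) (2 * q + 2)
      have e : 1 + ((2 * q + 2 : ℕ) : ℝ) * ((b - 1) / b - 1) = 7 / 8 := by
        rw [ha']
        have : (16 * (q : ℝ) + 16) ≠ 0 := by positivity
        push_cast
        field_simp
        ring
      linarith
    have h2 : (49 : ℝ) / 64 ≤ ((b - 1) / b) ^ (2 * (2 * q + 2)) := by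
      rw [mul_comm 2 (2 * q + 2), pow_mul]
      have : (49 : ℝ) / 64 = (7 / 8) ^ 2 := by norm_num
      rw [this]
      exact pow_le_pow_left₀ (by norm_num) h1 2
    have h3 : (((b - 1) / b) ^ 2) ^ (2 * q + 1) ≤ ((b - 1) / (b + 1)) ^ (2 * q + 1) := by
      apply pow_le_pow_left₀ (by positivity)
      rw [div_pow, div_le_div_iff₀ (by positivity) (by positivity)]
      nlinarith
    have h4 : ((b - 1) / b) ^ 2 ≤ b / (b + 2) := by
      rw [div_pow, div_le_div_iff₀ (by positivity) (by positivity)]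
      nlinarith
    have h5 : (49 : ℝ) / 64 ≤ ((b - 1) / (b + 1)) ^ (2 * q + 1) * (b / (b + 2)) := by
      calc (49 : ℝ) / 64 ≤ ((b - 1) / b) ^ (2 * (2 * q + 2)) := h2
        _ = (((b - 1) / b) ^ 2) ^ (2 * q + 1) * ((b - 1) / b) ^ 2 := by
          have e : 2 * (2 * q + 2) = 2 * (2 * q + 1) + 2 := by ring
          rw [e, pow_add, pow_mul]
        _ ≤ _ := mul_le_mul h3 h4 (by positivity)
          (pow_nonneg (div_nonneg (by linarith) (by linarith)) _)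
    rw [div_pow, div_mul_div_comm, div_le_div_iff₀ (by norm_num) (by positivity)] at h5
    linarith
  have : ((49 * ((a + 1) ^ (2 * q + 1) * (a + 2)) : ℤ) : ℝ) ≤
      ((64 * ((a - 1) ^ (2 * q + 1) * a) : ℤ) : ℝ) := by
    push_cast
    exact key
  exact_mod_cast this

/-- upper bound of the ratio -/
lemma ratio_upper (q : ℕ) (a : ℤ) (ha : a = 16 * q + 16) :
    100 * ((a - 1) ^ (2 * q + 1) * a) ≤ 82 * ((a + 1) ^ (2 * q + 1) * (a + 2)) := by
  have ha16 : (16 : ℤ) ≤ a := by rw [ha]; have : (0 : ℤ) ≤ q := Int.natCast_nonneg q; linarith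
  have hr : (16 : ℝ) ≤ (a : ℝ) := by exact_mod_cast ha16
  have ha' : (a : ℝ) = 16 * q + 16 := by rw [ha]; push_cast; ring
  set b : ℝ := (a : ℝ) with hb
  have hb0 : 0 < b := by linarith
  have hq0 : (0 : ℝ) ≤ q := Nat.cast_nonneg q
  have key : 100 * ((b - 1) ^ (2 * q + 1) * b) ≤ 82 * ((b + 1) ^ (2 * q + 1) * (b + 2)) := by
    set t : ℝ := 2 / (b + 1) with ht
    have ht0 : 0 < t := by positivity
    have ht1 : t < 1 := by rw [ht, div_lt_one (by positivity)]; linarith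
    have h1 : (b - 1) = (1 - t) * (b + 1) := by rw [ht]; field_simp; ring
    have h2 : (1 - t) ^ (2 * q + 1) * (1 + ((2 * q + 1 : ℕ) : ℝ) * t) ≤ 1 := by
      have e1 := one_add_mul_le_pow (R := ℝ) (a := t) (by linarith) (2 * q + 1)
      have e2 : (0 : ℝ) ≤ (1 - t) ^ (2 * q + 1) := pow_nonneg (by linarith) _
      calc (1 - t) ^ (2 * q + 1) * (1 + ((2 * q + 1 : ℕ) : ℝ) * t)
          ≤ (1 - t) ^ (2 * q + 1) * (1 + t) ^ (2 * q + 1) := mul_le_mul_of_nonneg_left e1 e2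
        _ = (1 - t ^ 2) ^ (2 * q + 1) := by rw [← mul_pow]; congr 1; ring
        _ ≤ 1 := pow_le_one₀ (by nlinarith) (by nlinarith)
    have h3 : 1 + ((2 * q + 1 : ℕ) : ℝ) * t = (20 * q + 19) / (16 * q + 17) := by
      rw [ht, ha']
      have : (16 * (q : ℝ) + 17) ≠ 0 := by positivity
      push_cast
      field_simp
      ring
    have h4 : (1 - t) ^ (2 * q + 1) ≤ (16 * q + 17) / (20 * q + 19) := by
      rw [h3] at h2
      rw [le_div_iff₀ (by positivity)]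
      rw [mul_div_assoc', div_le_one (by positivity)] at h2
      exact h2
    rw [h1, mul_pow]
    have h5 : 100 * ((16 * (q : ℝ) + 17) / (20 * q + 19)) * b ≤ 82 * (b + 2) := by
      rw [mul_div_assoc', div_mul_eq_mul_div, div_le_iff₀ (by positivity), ha']
      nlinarith
    have hp : (0 : ℝ) < (b + 1) ^ (2 * q + 1) := by positivity
    calc 100 * ((1 - t) ^ (2 * q + 1) * (b + 1) ^ (2 * q + 1) * b)
        = (100 * (1 - t) ^ (2 * q + 1) * b) * (b + 1) ^ (2 * q + 1) := by ring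
      _ ≤ (100 * ((16 * (q : ℝ) + 17) / (20 * q + 19)) * b) * (b + 1) ^ (2 * q + 1) := by
        gcongr
      _ ≤ (82 * (b + 2)) * (b + 1) ^ (2 * q + 1) := by gcongr
      _ = _ := by ring
  have : ((100 * ((a - 1) ^ (2 * q + 1) * a) : ℤ) : ℝ) ≤
      ((82 * ((a + 1) ^ (2 * q + 1) * (a + 2)) : ℤ) : ℝ) := by
    push_cast
    exact key
  exact_mod_cast this

/-- `num * den < E ^ 2` -/
lemma prod_lt (q : ℕ) (a : ℤ) (ha : 16 ≤ a) :
    ((a - 1) ^ (2 * q + 1) * a) * ((a + 1) ^ (2 * q + 1) * (a + 2)) ≤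
      (a ^ (2 * q + 1) * (a + 1)) ^ 2 := by
  have e1 : ((a - 1) ^ (2 * q + 1) * a) * ((a + 1) ^ (2 * q + 1) * (a + 2)) =
      (a ^ 2 - 1) ^ (2 * q + 1) * (a * (a + 2)) := by
    have : (a ^ 2 - 1) = (a - 1) * (a + 1) := by ring
    rw [this, mul_pow]; ring
  have e2 : (a ^ (2 * q + 1) * (a + 1)) ^ 2 = (a ^ 2) ^ (2 * q + 1) * (a + 1) ^ 2 := by
    rw [mul_pow, ← pow_mul, ← pow_mul, mul_comm 2 (2 * q + 1)]
  rw [e1, e2]
  apply mul_le_mul
  · exact pow_le_pow_left₀ (by nlinarith) (by linarith) _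
  · nlinarith
  · nlinarith
  · positivity

/-- The Pell equation. -/
lemma pell (q : ℕ) (a : ℤ) (ha : 16 ≤ a) (N : ℤ) (hN : 1 ≤ N) :
    ∃ X k : ℤ, 0 < X ∧ N ≤ k ∧ X ^ 2 = 1 + 4 * ((a - 1) ^ (2 * q + 1) * a) *
      ((a + 1) ^ (2 * q + 1) * (a + 2)) * (a ^ (2 * q + 1) * (a + 1)) ^ 2 * k ^ 2 := by
  set d : ℤ := (a ^ 2 + a - 1) ^ 2 - 1 with hd
  have hdns : ¬ IsSquare d := not_sq_sub_one (by nlinarith)
  have hdpos : 0 < d := by rw [hd]; nlinarith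
  set M : ℤ := 2 * (a ^ (2 * q + 1) * (a + 1)) * (a ^ 2 - 1) ^ q * N with hM
  have hMpos : 0 < M := by
    have h1 : 0 < a ^ (2 * q + 1) * (a + 1) := mul_pos (pow_pos (by linarith) _) (by linarith)
    have h2 : 0 < (a ^ 2 - 1) ^ q := pow_pos (by nlinarith) _
    positivity
  obtain ⟨x, y, hxy, hy⟩ := Pell.exists_of_not_isSquare (mul_pos hdpos (pow_pos hMpos 2))
    (not_sq_mul hdns hMpos.ne')
  refine ⟨|x|, N * |y|, ?_, ?_, ?_⟩
  · rw [abs_pos]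
    rintro rfl
    have : 0 ≤ d * M ^ 2 * y ^ 2 := by positivity
    nlinarith
  · have : 1 ≤ |y| := Int.one_le_abs hy
    nlinarith
  · rw [sq_abs, mul_pow N |y| 2, sq_abs]
    have e : 4 * ((a - 1) ^ (2 * q + 1) * a) * ((a + 1) ^ (2 * q + 1) * (a + 2)) *
        (a ^ (2 * q + 1) * (a + 1)) ^ 2 * (N ^ 2 * y ^ 2) = d * M ^ 2 * y ^ 2 := by
      have h1 : (a - 1) ^ (2 * q + 1) * (a + 1) ^ (2 * q + 1) =
          ((a ^ 2 - 1) ^ q) ^ 2 * (a ^ 2 - 1) := by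
        rw [← mul_pow, ← pow_mul, mul_comm q 2]
        have : (a - 1) * (a + 1) = a ^ 2 - 1 := by ring
        rw [this, pow_succ]
      calc 4 * ((a - 1) ^ (2 * q + 1) * a) * ((a + 1) ^ (2 * q + 1) * (a + 2)) *
        (a ^ (2 * q + 1) * (a + 1)) ^ 2 * (N ^ 2 * y ^ 2)
          = 4 * ((a - 1) ^ (2 * q + 1) * (a + 1) ^ (2 * q + 1)) * (a * (a + 2)) *
        (a ^ (2 * q + 1) * (a + 1)) ^ 2 * (N ^ 2 * y ^ 2) := by ring
        _ = 4 * (((a ^ 2 - 1) ^ q) ^ 2 * (a ^ 2 - 1)) * (a * (a + 2)) *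
        (a ^ (2 * q + 1) * (a + 1)) ^ 2 * (N ^ 2 * y ^ 2) := by rw [h1]
        _ = d * M ^ 2 * y ^ 2 := by rw [hd, hM]; ring
    rw [e]
    linarith

/-- The polynomial. -/
lemma poly_eq (q : ℕ) (a : ℕ) (ha : 16 ≤ a) (n c : ℤ) (N : ℕ) (hN : (N : ℤ) = n)
    (hn : n = 1 + 2 * (((a : ℤ) + 1) ^ (2 * q + 1) * (a + 2)) * ((a : ℤ) ^ (2 * q + 1) * (a + 1)) *
      c) :
    (C c * X * (C (2 * (((a : ℤ) + 1) ^ (2 * q + 1) * (a + 2))) +
      C (n * ((a : ℤ) ^ (2 * q + 1) * (a + 1)) - 2 * (((a : ℤ) + 1) ^ (2 * q + 1) * (a + 2))) * X) *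
      (C (a : ℤ) + X) ^ (2 * q + 1) * (C ((a : ℤ) + 1) + X)).map (Int.castRingHom ℚ) =
      tgt (2 * q + 2) a N := by
  have ha0 : (a : ℚ) ≠ 0 := by
    have : 0 < a := by omega
    exact_mod_cast this.ne'
  have ha1 : (a : ℚ) + 1 ≠ 0 := by positivity
  have ha2 : (a : ℚ) + 2 ≠ 0 := by positivity
  set D : ℚ := 2 * (((a : ℚ) + 1) ^ (2 * q + 1) * (a + 2)) with hD
  set E : ℚ := (a : ℚ) ^ (2 * q + 1) * (a + 1) with hE
  have hD0 : D ≠ 0 := by rw [hD]; positivity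
  have hE0 : E ≠ 0 := by rw [hE]; positivity
  have hev : (eP (2 * q + 2) a).eval 1 = D / (2 * E) := by
    unfold eP
    have e1 : 2 * q + 2 - 1 = 2 * q + 1 := by omega
    rw [e1]
    simp only [eval_mul, eval_pow, eval_add, eval_one, eval_C, eval_X, mul_one]
    rw [hD, hE]
    have h1 : (1 + 1 / (a : ℚ)) = ((a : ℚ) + 1) / a := by field_simp
    have h2 : (1 + 1 / ((a : ℚ) + 1)) = ((a : ℚ) + 2) / (a + 1) := by field_simp; ring
    rw [h1, h2, div_pow]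
    field_simp
  have hNn : (N : ℚ) = 1 + D * E * c := by
    have : ((N : ℤ) : ℚ) = (n : ℚ) := by rw [hN]
    rw [Int.cast_natCast] at this
    rw [this, hn, hD, hE]
    push_cast
    ring
  have hfac1 : (C (a : ℚ) + X : ℚ[X]) = C (a : ℚ) * (1 + C (1 / (a : ℚ)) * X) := by
    rw [mul_add, mul_one, ← mul_assoc, ← C_mul, mul_one_div_cancel ha0, C_1, one_mul]
  have hfac2 : (C ((a : ℚ) + 1) + X : ℚ[X]) = C ((a : ℚ) + 1) * (1 + C (1 / ((a : ℚ) + 1)) * X) := by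
    rw [mul_add, mul_one, ← mul_assoc, ← C_mul, mul_one_div_cancel ha1, C_1, one_mul]
  have hfac3 : (C D + C ((N : ℚ) * E - D) * X : ℚ[X]) =
      C D * (1 + C ((N : ℚ) / (2 * (eP (2 * q + 2) a).eval 1) - 1) * X) := by
    have hc : (N : ℚ) * E - D = D * ((N : ℚ) / (2 * (eP (2 * q + 2) a).eval 1) - 1) := by
      rw [hev]
      field_simp
    rw [hc]
    generalize (N : ℚ) / (2 * (eP (2 * q + 2) a).eval 1) - 1 = w
    clear_value D
    rw [C_mul]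
    ring
  have hmap : (C c * X * (C (2 * (((a : ℤ) + 1) ^ (2 * q + 1) * (a + 2))) +
      C (n * ((a : ℤ) ^ (2 * q + 1) * (a + 1)) - 2 * (((a : ℤ) + 1) ^ (2 * q + 1) * (a + 2))) * X) *
      (C (a : ℤ) + X) ^ (2 * q + 1) * (C ((a : ℤ) + 1) + X)).map (Int.castRingHom ℚ) =
      C (c : ℚ) * X * (C D + C ((N : ℚ) * E - D) * X) * (C (a : ℚ) + X) ^ (2 * q + 1) *
        (C ((a : ℚ) + 1) + X) := by
    have hn' : (n : ℚ) = N := by rw [← hN, Int.cast_natCast]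
    simp only [Polynomial.map_mul, Polynomial.map_add, Polynomial.map_pow, Polynomial.map_C,
      Polynomial.map_X, Int.coe_castRingHom, Int.cast_mul, Int.cast_add, Int.cast_pow,
      Int.cast_natCast, Int.cast_ofNat, Int.cast_one, Int.cast_sub]
    rw [hD, hE, hn']
  rw [hmap, hfac1, hfac2, hfac3]
  unfold tgt
  rw [hNn]
  have e1 : 2 * q + 2 - 1 = 2 * q + 1 := by omega
  have : (1 + D * E * c - 1 : ℚ) = c * D * ((a : ℚ) ^ (2 * q + 1)) * (a + 1) := by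
    rw [hE]; ring
  rw [this]
  have heP : eP (2 * q + 2) a =
      (1 + C (1 / (a : ℚ)) * X) ^ (2 * q + 1) * (1 + C (1 / ((a : ℚ) + 1)) * X) := by
    unfold eP; rw [e1]
  generalize (C ((1 + D * E * ↑c) / (2 * eval 1 (eP (2 * q + 2) a)) - 1) : ℚ[X]) = U
  rw [heP]
  generalize (1 + C (1 / (a : ℚ)) * X : ℚ[X]) = F1
  generalize (1 + C (1 / ((a : ℚ) + 1)) * X : ℚ[X]) = F2
  clear_value D
  have hC : (C ((c : ℚ) * D * (a : ℚ) ^ (2 * q + 1) * ((a : ℚ) + 1)) : ℚ[X]) =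
      C (c : ℚ) * C D * C (a : ℚ) ^ (2 * q + 1) * C ((a : ℚ) + 1) := by
    rw [C_mul, C_mul, C_mul, C_pow]
  rw [hC]
  generalize (C ((a : ℚ) + 1) : ℚ[X]) = c1
  generalize (C (a : ℚ) : ℚ[X]) = c2
  generalize (C D : ℚ[X]) = c3
  generalize (C (c : ℚ) : ℚ[X]) = c4
  rw [mul_pow]
  ring

/-- The inequalities. -/
lemma core (num den E X k N : ℤ) (hnum0 : 0 < num) (hden0 : 0 < den) (hE0 : 0 < E) (hX : 0 < X)
    (hN : 0 ≤ N) (hk : N + 400 ≤ k) (hXk : X ^ 2 = 1 + 4 * num * den * E ^ 2 * k ^ 2)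
    (hlow : 49 * den ≤ 64 * num) (hup : 100 * num ≤ 82 * den) (hprod : num * den ≤ E ^ 2) :
    ∃ Y Z V r : ℤ, Y = 2 * den * E * k ∧ Z = 2 * num * E * k ∧ V = 8 * k * (num * den) ∧
      r = 2 * X + Y + Z - V ∧ Y * Z = X ^ 2 - 1 ∧ k ≤ Y ∧ 1 ≤ r ∧ 87 * Y + 187 ≤ 100 * X ∧
      100 * X ≤ 91 * Y := by
  have hk0 : 0 < k := by linarith
  obtain ⟨Y, hY⟩ : ∃ Y, Y = 2 * den * E * k := ⟨_, rfl⟩
  obtain ⟨Z, hZ⟩ : ∃ Z, Z = 2 * num * E * k := ⟨_, rfl⟩
  obtain ⟨V, hV⟩ : ∃ V, V = 8 * k * (num * den) := ⟨_, rfl⟩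
  obtain ⟨r, hr⟩ : ∃ r, r = 2 * X + Y + Z - V := ⟨_, rfl⟩
  have hYZ : Y * Z = X ^ 2 - 1 := by rw [hXk, hY, hZ]; ring
  have hY0 : 0 < Y := by rw [hY]; positivity
  have hZ0 : 0 < Z := by rw [hZ]; positivity
  have hV0 : 0 < V := by rw [hV]; positivity
  have hdE : 1 ≤ den * E := Int.add_one_le_iff.2 (mul_pos hden0 hE0)
  have hEk : 1 ≤ E * k := Int.add_one_le_iff.2 (mul_pos hE0 hk0)
  have hYk : k ≤ Y := by
    have e : Y = 2 * ((den * E) * k) := by rw [hY]; ring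
    have h2 : 1 * k ≤ (den * E) * k := mul_le_mul_of_nonneg_right hdE hk0.le
    linarith
  have hV2 : V ^ 2 ≤ 16 * (X ^ 2 - 1) := by
    have h2 : (64 * k ^ 2 * (num * den)) * (num * den) ≤ (64 * k ^ 2 * (num * den)) * E ^ 2 :=
      mul_le_mul_of_nonneg_left hprod (by positivity)
    have e1 : V ^ 2 = (64 * k ^ 2 * (num * den)) * (num * den) := by rw [hV]; ring
    have e2 : 16 * (X ^ 2 - 1) = (64 * k ^ 2 * (num * den)) * E ^ 2 := by rw [hXk]; ring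
    rw [e1, e2]
    exact h2
  have hV4 : V < 4 * X := by
    by_contra hcon
    have hcon' : 4 * X ≤ V := not_lt.1 hcon
    have : (4 * X) ^ 2 ≤ V ^ 2 := pow_le_pow_left₀ (by linarith) hcon' 2
    have e : (4 * X) ^ 2 = 16 * X ^ 2 := by ring
    linarith
  have hYZ2 : 2 * X ≤ Y + Z := by
    have h1 : 2 ≤ Y - Z := by
      have h2 : Y - Z = 2 * ((E * k) * (den - num)) := by rw [hY, hZ]; ring
      have h4 : 1 ≤ den - num := by omega
      have h5 : 1 * 1 ≤ (E * k) * (den - num) := mul_le_mul hEk h4 (by norm_num) (by linarith)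
      linarith
    by_contra hcon
    have hcon' : Y + Z < 2 * X := not_le.1 hcon
    have h3 : (Y + Z) ^ 2 < (2 * X) ^ 2 := pow_lt_pow_left₀ hcon' (by linarith) (by norm_num)
    have h4 : 2 ^ 2 ≤ (Y - Z) ^ 2 := pow_le_pow_left₀ (by norm_num) h1 2
    have e5 : (Y + Z) ^ 2 = (Y - Z) ^ 2 + 4 * (Y * Z) := by ring
    have e6 : (2 * X) ^ 2 = 4 * X ^ 2 := by ring
    rw [e5, e6, hYZ] at h3
    linarith
  have h400 : 400 ≤ Y := by linarith
  refine ⟨Y, Z, V, r, hY, hZ, hV, hr, hYZ, hYk, by linarith, ?_, ?_⟩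
  · have h2 : 49 * Y ≤ 64 * Z := by
      have e : 64 * Z - 49 * Y = (64 * num - 49 * den) * (2 * (E * k)) := by rw [hY, hZ]; ring
      have : 0 ≤ (64 * num - 49 * den) * (2 * (E * k)) := mul_nonneg (by linarith) (by linarith)
      linarith
    have h1 : 49 * Y ^ 2 ≤ 64 * (X ^ 2 - 1) := by
      rw [← hYZ]
      have h6 : Y * (49 * Y) ≤ Y * (64 * Z) := mul_le_mul_of_nonneg_left h2 hY0.le
      have e7 : Y * (49 * Y) = 49 * Y ^ 2 := by ring
      have e8 : Y * (64 * Z) = 64 * (Y * Z) := by ring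
      linarith
    by_contra hcon
    have hcon' : 100 * X ≤ 87 * Y + 186 := by omega
    have h3 : (100 * X) ^ 2 ≤ (87 * Y + 186) ^ 2 := pow_le_pow_left₀ (by linarith) hcon' 2
    have h4 : 400 * Y ≤ Y ^ 2 := by rw [sq]; exact mul_le_mul_of_nonneg_right h400 hY0.le
    have e5 : (100 * X) ^ 2 = 10000 * X ^ 2 := by ring
    have e6 : (87 * Y + 186) ^ 2 = 7569 * Y ^ 2 + 32364 * Y + 34596 := by ring
    rw [e5, e6] at h3
    linarith
  · have h2 : 100 * Z ≤ 82 * Y := by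
      have e : 82 * Y - 100 * Z = (82 * den - 100 * num) * (2 * (E * k)) := by rw [hY, hZ]; ring
      have : 0 ≤ (82 * den - 100 * num) * (2 * (E * k)) := mul_nonneg (by linarith) (by linarith)
      linarith
    have h1 : 100 * (X ^ 2 - 1) ≤ 82 * Y ^ 2 := by
      rw [← hYZ]
      have h6 : Y * (100 * Z) ≤ Y * (82 * Y) := mul_le_mul_of_nonneg_left h2 hY0.le
      have e7 : Y * (82 * Y) = 82 * Y ^ 2 := by ring
      have e8 : Y * (100 * Z) = 100 * (Y * Z) := by ring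
      linarith
    by_contra hcon
    have hcon' : 91 * Y + 1 ≤ 100 * X := by omega
    have h3 : (91 * Y + 1) ^ 2 ≤ (100 * X) ^ 2 := pow_le_pow_left₀ (by linarith) hcon' 2
    have h4 : 400 * Y ≤ Y ^ 2 := by rw [sq]; exact mul_le_mul_of_nonneg_right h400 hY0.le
    have e5 : (100 * X) ^ 2 = 10000 * X ^ 2 := by ring
    have e6 : (91 * Y + 1) ^ 2 = 8281 * Y ^ 2 + 182 * Y + 1 := by ring
    rw [e5, e6] at h3
    linarith

end PD

open PD in
theorem t_D : S_D := by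
  intro g hg N0
  obtain ⟨q, rfl⟩ : ∃ q, g = q + 2 := ⟨g - 2, by omega⟩
  have e1 : 2 * (q + 2) - 2 = 2 * q + 2 := by omega
  rw [e1]
  obtain ⟨A, hA⟩ : ∃ A : ℕ, A = 8 * (2 * q + 2) := ⟨_, rfl⟩
  rw [← hA]
  have hA16 : 16 ≤ A := by omega
  have haq : (A : ℤ) = 16 * (q : ℤ) + 16 := by rw [hA]; push_cast; ring
  have ha16 : (16 : ℤ) ≤ A := by exact_mod_cast hA16
  have hN00 : (0 : ℤ) ≤ N0 := Int.natCast_nonneg _
  obtain ⟨X, k, hX, hk, hXk⟩ := pell q A ha16 ((N0 : ℤ) + 400) (by linarith)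
  have hlow := ratio_lower q A haq
  have hup := ratio_upper q A haq
  have hprod := prod_lt q A ha16
  have hpE := poly_eq q A hA16
  obtain ⟨num, hnum⟩ : ∃ num : ℤ, num = ((A : ℤ) - 1) ^ (2 * q + 1) * A := ⟨_, rfl⟩
  obtain ⟨den, hden⟩ : ∃ den : ℤ, den = ((A : ℤ) + 1) ^ (2 * q + 1) * (A + 2) := ⟨_, rfl⟩
  obtain ⟨E, hE⟩ : ∃ E : ℤ, E = (A : ℤ) ^ (2 * q + 1) * (A + 1) := ⟨_, rfl⟩
  have hnum0 : 0 < num := by
    rw [hnum]; exact mul_pos (pow_pos (by linarith) _) (by linarith)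
  have hden0 : 0 < den := by
    rw [hden]; exact mul_pos (pow_pos (by linarith) _) (by linarith)
  have hE0 : 0 < E := by
    rw [hE]; exact mul_pos (pow_pos (by linarith) _) (by linarith)
  rw [← hnum, ← hden, ← hE] at hXk hprod
  rw [← hden, ← hnum] at hlow hup
  simp only [← hden, ← hE] at hpE
  obtain ⟨Y, Z, V, r, hY, hZ, hV, hr, hYZ, hYk, hr1, hX1, hX2⟩ :=
    core num den E X k N0 hnum0 hden0 hE0 hX hN00 hk hXk hlow hup hprod
  have hY0 : 0 < Y := by linarith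
  have hn0 : 0 ≤ 1 + Y * r := by nlinarith
  have hXr : X * 1 ≤ X * r := mul_le_mul_of_nonneg_left hr1 hX.le
  have hs0 : 0 ≤ X * r - 1 := by linarith
  obtain ⟨n, hn⟩ := Int.eq_ofNat_of_zero_le hn0
  obtain ⟨s, hs⟩ := Int.eq_ofNat_of_zero_le hs0
  have hnr : (n : ℤ) = 1 + 2 * den * E * (r * k) := by rw [← hn, hY]; ring
  refine ⟨n, s, _, ?_, hpE (n : ℤ) (r * k) n rfl hnr, ?_, ?_, ?_⟩
  · have h1 : Y * 1 ≤ Y * r := mul_le_mul_of_nonneg_left hr1 hY0.le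
    have : (N0 : ℤ) ≤ n := by
      rw [← hn]
      linarith
    exact_mod_cast this
  · simp only [eval_mul, eval_add, eval_pow, eval_C, eval_X]
    have e2 : (A : ℤ) + -1 = (A : ℤ) - 1 := by ring
    have e3 : (A : ℤ) + 1 + -1 = A := by ring
    rw [e2, e3]
    have e4 : 2 * (r * k * -1 * (2 * den + ((n : ℤ) * E - 2 * den) * -1) *
        ((A : ℤ) - 1) ^ (2 * q + 1) * A) + (n : ℤ) =
        2 * (k * r) * ((n : ℤ) * E - 4 * den) * num + n := by
      rw [hnum]; ring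
    rw [e4, ← hn, ← hs]
    have e5 : 2 * (k * r) * ((1 + Y * r) * E - 4 * den) * num + (1 + Y * r) =
        1 + r * (Y + Z - V) + (Y * Z) * r ^ 2 := by
      rw [hZ, hV]; ring
    rw [e5, hYZ]
    have e6 : Y + Z - V = r - 2 * X := by rw [hr]; ring
    rw [e6]
    ring
  · have h1 : (87 * Y + 187) * r ≤ (100 * X) * r := mul_le_mul_of_nonneg_right hX1 (by linarith)
    have : (87 : ℤ) * n ≤ 100 * s := by
      rw [← hn, ← hs]
      linarith
    exact_mod_cast this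
  · have h1 : (100 * X) * r ≤ (91 * Y) * r := mul_le_mul_of_nonneg_right hX2 (by linarith)
    have : (100 : ℤ) * s ≤ 91 * n := by
      rw [← hn, ← hs]
      linarith
    exact_mod_cast this

end Pool.Agent.Helper96.WT
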