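import Pool.Agent.Helper96.WT.Gad

/-!
# Assembly
-/

set_option autoImplicit false

namespace Pool.Agent.Helper96.WT

open Polynomial Finset

namespace RT

theorem coeff_le_eval_one {p : ℤ[X]} (hp : ∀ k, 0 ≤ p.coeff k) (k : ℕ) : p.coeff k ≤ p.eval 1 := by
  rw [eval_eq_sum_range]
  simp only [one_pow, mul_one]
  by_cases h : k ≤ p.natDegree
  · exact Finset.single_le_sum (f := fun i => p.coeff i) (fun i _ => hp i) (mem_range.2 (by omega))
  · rw [coeff_eq_zero_of_natDegree_lt (by omega)]
    exact Finset.sum_nonneg fun i _ => hp i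

theorem L_one_pos (t : RT) : 1 ≤ (L t).eval 1 := by
  have h := coeff_le_eval_one (L_nonneg t) 0
  rwa [L_coeff_zero] at h

theorem E_coeff (t : RT) (k : ℕ) : |(E t).coeff k| ≤ (L t).eval 1 ^ 2 := by
  have h1 := coeff_le_eval_one (W_nonneg t) k
  have h2 := W_nonneg t k
  have h3 := W_one t
  have h4 : ∀ k, 0 ≤ (X ^ 2 * L t ^ 2 : ℤ[X]).coeff k := by
    intro k
    have e : (X ^ 2 * L t ^ 2 : ℤ[X]) = X * (X * (L t * L t)) := by ring
    rw [e]
    exact X_mul_nonneg (X_mul_nonneg (mul_coeff_nonneg (L_nonneg t) (L_nonneg t))) k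
  have h5 := coeff_le_eval_one h4 k
  have h6 := h4 k
  have h7 : (X ^ 2 * L t ^ 2 : ℤ[X]).eval 1 = (L t).eval 1 ^ 2 := by simp
  rw [h7] at h5
  have h8 : (E t).coeff k = 2 * (W t).coeff k - (X ^ 2 * L t ^ 2 : ℤ[X]).coeff k := by
    unfold E
    rw [coeff_sub]
    have : (2 * W t : ℤ[X]) = C 2 * W t := by rfl
    rw [this, coeff_C_mul]
  have h9 := L_one_pos t
  rw [h8, abs_le]
  constructor <;> nlinarith

theorem sum_L_nonneg (bs : List RT) : ∀ k, 0 ≤ ((bs.map L).sum).coeff k := by
  induction bs with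
  | nil => intro k; simp
  | cons b bs ih =>
    intro k
    rw [List.map_cons, List.sum_cons, coeff_add]
    exact add_nonneg (L_nonneg b k) (ih k)

theorem sum_E_coeff (bs : List RT) (k : ℕ) :
    |((bs.map E).sum).coeff k| ≤ ((bs.map L).sum).eval 1 ^ 2 := by
  induction bs with
  | nil => simp
  | cons b bs ih =>
    rw [List.map_cons, List.sum_cons, coeff_add, List.map_cons, List.sum_cons, eval_add]
    have h1 := E_coeff b k
    have h2 := L_one_pos b
    have h3 : 0 ≤ ((bs.map L).sum).eval 1 :=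
      (sum_L_nonneg bs 0).trans (coeff_le_eval_one (sum_L_nonneg bs) 0)
    refine (abs_add_le _ _).trans ?_
    nlinarith

theorem L_one_lv (k : ℕ) : (L (lv pt k)).eval 1 = 1 + k := by
  rw [L_lv, L_pt]; simp

theorem L_one_leg (i : ℕ) (t : RT) : (L (leg i t)).eval 1 = i + (L t).eval 1 := by
  induction i with
  | zero => simp [leg]
  | succ i ih =>
    rw [leg_succ, L_gr, L_pt]
    simp only [eval_add, eval_one, eval_mul, eval_X, ih]
    push_cast; ring

theorem L_one_evB (i t : ℕ) : (L (evB i t)).eval 1 = i + 1 + t := by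
  unfold evB
  rw [L_one_leg, L_one_lv]; ring

theorem L_one_odB (i α β : ℕ) : (L (odB i α β)).eval 1 = i + 2 + α + β := by
  unfold odB
  rw [L_one_leg, L_gr]
  simp only [eval_add, eval_mul, eval_X, L_one_lv]
  ring

theorem gadg_size (g T : ℕ) (hT : 1 ≤ T) :
    (((gadg g T (fun _ _ => 0) (fun _ => 0) (fun _ => 0)).map L).sum).eval 1 ≤
      12 * (g : ℤ) * (g + 1) * T := by
  unfold gadg
  rw [List.map_append, List.sum_append, sum_flatMap, sum_flatMap, eval_add, eval_finsetSum,
    eval_finsetSum]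
  have hT' : (1 : ℤ) ≤ T := by exact_mod_cast hT
  have h1 : ∀ i ∈ range (g - 1), (((evens T i fun _ => 0).map L).sum).eval 1 ≤
      8 * ((g : ℤ) + 1) * T := by
    intro i hi
    rw [mem_range] at hi
    have hi' : (i : ℤ) + 1 ≤ g := by omega
    simp only [evens, List.map_cons, List.map_nil, List.sum_cons, List.sum_nil, eval_add, eval_zero,
      L_one_evB, Nat.add_zero, Nat.sub_zero]
    nlinarith
  have h2 : ∀ i ∈ range (g - 2), (((odds T i 0 0).map L).sum).eval 1 ≤
      4 * ((g : ℤ) + 1) * T := by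
    intro i hi
    rw [mem_range] at hi
    have hi' : (i : ℤ) + 3 ≤ g := by omega
    simp only [odds, List.map_cons, List.map_nil, List.sum_cons, List.sum_nil, eval_add, eval_zero,
      L_one_odB, Nat.add_zero, Nat.sub_zero]
    push_cast
    nlinarith
  have h3 := Finset.sum_le_sum h1
  have h4 := Finset.sum_le_sum h2
  rw [Finset.sum_const, card_range, nsmul_eq_mul] at h3 h4
  have h5 : ((g - 1 : ℕ) : ℤ) ≤ g := by omega
  have h6 : ((g - 2 : ℕ) : ℤ) ≤ g := by omega
  have h7 : (0 : ℤ) ≤ ((g : ℤ) + 1) * T := by positivity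
  nlinarith

theorem ell_deg (g : ℕ) (m : ℕ → ℕ) (bs : List RT) (hbs : ∀ b ∈ bs, ht b + 1 ≤ g) (i : ℕ) :
    (ell (g - 1) (X * (bs.map L).sum) m i).natDegree ≤ if i = g - 1 then max g 1 else 1 := by
  rw [← tree_ell]
  refine (L_deg _).trans ?_
  split_ifs with h
  · exact ht_att _ _ _ ((ht_lv pt _).trans (by simp)) (fun b hb => (hbs b hb).trans (le_max_left _ _))
  · exact (ht_lv pt _).trans (by simp)

theorem tree_deg (g : ℕ) (hg : 2 ≤ g) (m : ℕ → ℕ) (bs : List RT) (hbs : ∀ b ∈ bs, ht b + 1 ≤ g)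
    (k : ℕ) (hk : 2 * g < k) : (W (tree g m bs)).coeff k = 0 := by
  have h1 := W_tree g hg m bs
  have h2 : (twoW (2 * g - 2) (g - 1) (X * (bs.map L).sum) (bs.map E).sum m).natDegree ≤ 2 * g := by
    unfold twoW
    refine (natDegree_add_le _ _).trans (max_le ((natDegree_sub_le _ _).trans (max_le
      ((natDegree_sub_le _ _).trans (max_le ?_ ?_)) ?_)) ?_)
    · apply natDegree_sum_le_of_forall_le
      intro i hi
      apply natDegree_sum_le_of_forall_le
      intro j hj
      rw [mem_range] at hi hj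
      have e1 := ell_deg g m bs hbs i
      have e2 := ell_deg g m bs hbs j
      refine natDegree_mul_le.trans ?_
      refine (Nat.add_le_add (natDegree_X_pow_le _) (natDegree_mul_le.trans (Nat.add_le_add e1 e2))).trans ?_
      unfold Nat.dist
      split_ifs <;> omega
    · rw [natDegree_C]; omega
    · refine natDegree_mul_le.trans ?_
      rw [natDegree_C, natDegree_X_pow]; omega
    · clear h1
      induction bs with
      | nil => simp
      | cons b bs ih =>
        rw [List.map_cons, List.sum_cons]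
        refine (natDegree_add_le _ _).trans (max_le ?_ (ih fun c hc => hbs c (by simp [hc])))
        have e := hbs b (by simp)
        unfold E
        refine (natDegree_sub_le _ _).trans (max_le ?_ ?_)
        · have : (2 * W b : ℤ[X]) = C 2 * W b := rfl
          rw [this]
          refine (natDegree_C_mul_le _ _).trans ((W_deg b).trans ?_)
          omega
        · refine natDegree_mul_le.trans ?_
          rw [natDegree_X_pow]
          have := L_deg b
          have e2 : (L b ^ 2).natDegree ≤ 2 * ht b := natDegree_pow_le_of_le 2 this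
          omega
  have h3 : (2 * W (tree g m bs)).coeff k = 0 := by
    rw [h1]
    exact coeff_eq_zero_of_natDegree_lt (by omega)
  have : (2 * W (tree g m bs) : ℤ[X]) = C 2 * W (tree g m bs) := rfl
  rw [this, coeff_C_mul] at h3
  omega

/-- coefficients of the change -/
theorem chg_even (g T : ℕ) (b : ℕ → Fin 4 → ℕ) (β ρ : ℕ → ℕ) (j : ℕ) (hj : j < g - 1) :
    (chg g T b β ρ).coeff (2 * j + 4) =
      -((b j 0 : ℤ) ^ 2 + (b j 1 : ℤ) ^ 2 + (b j 2 : ℤ) ^ 2 + (b j 3 : ℤ) ^ 2) +
        if j = 0 then 0 else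
          ((β (j - 1) : ℤ) * (T - β (j - 1)) + (ρ (j - 1) : ℤ) * (T - ρ (j - 1))) := by
  unfold chg
  rw [coeff_add, finsetSum_coeff, finsetSum_coeff]
  congr 1
  · rw [Finset.sum_eq_single j]
    · rw [coeff_C_mul, coeff_sub, coeff_X_pow, coeff_X_pow, if_neg (by omega), if_pos (by omega)]
      ring
    · intro i _ hij
      rw [coeff_C_mul, coeff_sub, coeff_X_pow, coeff_X_pow, if_neg (by omega), if_neg (by omega)]
      ring
    · intro h; exact absurd (mem_range.2 hj) h
  · split_ifs with h0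
    · apply Finset.sum_eq_zero
      intro i _
      rw [coeff_sub, coeff_C_mul, coeff_C_mul, coeff_sub, coeff_sub, coeff_X_pow, coeff_X_pow, coeff_X_pow,
        coeff_X_pow, if_neg (by omega), if_neg (by omega), if_neg (by omega), if_neg (by omega)]
      ring
    · rw [Finset.sum_eq_single (j - 1)]
      · rw [coeff_sub, coeff_C_mul, coeff_C_mul, coeff_sub, coeff_sub, coeff_X_pow, coeff_X_pow, coeff_X_pow,
          coeff_X_pow, if_neg (by omega), if_neg (by omega), if_neg (by omega), if_pos (by omega)]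
        ring
      · intro i _ hij
        rw [coeff_sub, coeff_C_mul, coeff_C_mul, coeff_sub, coeff_sub, coeff_X_pow, coeff_X_pow, coeff_X_pow,
          coeff_X_pow, if_neg (by omega), if_neg (by omega), if_neg (by omega), if_neg (by omega)]
        ring
      · intro h; exact absurd (mem_range.2 (by omega)) h

theorem chg_odd (g T : ℕ) (b : ℕ → Fin 4 → ℕ) (β ρ : ℕ → ℕ) (j : ℕ) (hj : j < g - 2) :
    (chg g T b β ρ).coeff (2 * j + 5) = -((T : ℤ) * β j + ρ j) := by
  unfold chg
  rw [coeff_add, finsetSum_coeff, finsetSum_coeff]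
  rw [Finset.sum_eq_zero, zero_add, Finset.sum_eq_single j]
  · rw [coeff_sub, coeff_C_mul, coeff_C_mul, coeff_sub, coeff_sub, coeff_X_pow, coeff_X_pow, coeff_X_pow,
      coeff_X_pow, if_neg (by omega), if_pos (by omega), if_neg (by omega), if_neg (by omega)]
    ring
  · intro i _ hij
    rw [coeff_sub, coeff_C_mul, coeff_C_mul, coeff_sub, coeff_sub, coeff_X_pow, coeff_X_pow, coeff_X_pow,
      coeff_X_pow, if_neg (by omega), if_neg (by omega), if_neg (by omega), if_neg (by omega)]
    ring
  · intro h; exact absurd (mem_range.2 hj) h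
  · intro i _
    rw [coeff_C_mul, coeff_sub, coeff_X_pow, coeff_X_pow, if_neg (by omega), if_neg (by omega)]
    ring

theorem twoW_add (h c : ℕ) (Γ E0 D : ℤ[X]) (m : ℕ → ℕ) : twoW h c Γ (E0 + D) m = twoW h c Γ E0 m + D := by
  unfold twoW; ring

theorem two_cancel {p q : ℤ[X]} (h : 2 * p = 2 * q) : p = q := by
  have h2 : (2 : ℤ[X]) ≠ 0 := by
    have : (2 : ℤ[X]) = C 2 := rfl
    rw [this, Ne, C_eq_zero]
    norm_num
  exact mul_left_cancel₀ h2 h

end RT

end Pool.Agent.Helper96.WT
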