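import Pool.Agent.Helper96.WT.Poly

/-!
# Adjustment gadgets
-/

set_option autoImplicit false

namespace Pool.Agent.Helper96.WT

open Polynomial Finset

namespace RT

theorem sum_flatMap {α : Type*} (φ : α → ℤ[X]) (f : ℕ → List α) (n : ℕ) :
    (((List.range n).flatMap f).map φ).sum = ∑ i ∈ range n, ((f i).map φ).sum := by
  induction n with
  | zero => simp
  | succ n ih =>
    rw [List.range_succ, List.flatMap_append, List.map_append, List.sum_append, ih, Finset.sum_range_succ]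
    simp

/-- eight legs with `T ± b a` leaves at the end -/
def evens (T i : ℕ) (b : Fin 4 → ℕ) : List RT :=
  [evB i (T + b 0), evB i (T - b 0), evB i (T + b 1), evB i (T - b 1),
   evB i (T + b 2), evB i (T - b 2), evB i (T + b 3), evB i (T - b 3)]

/-- four legs -/
def odds (T i β ρ : ℕ) : List RT := [odB i T β, odB i 0 (T - β), odB i 1 ρ, odB i 0 (T - ρ)]

/-- all gadgets -/
def gadg (g T : ℕ) (b : ℕ → Fin 4 → ℕ) (β ρ : ℕ → ℕ) : List RT :=
  ((List.range (g - 1)).flatMap fun i => evens T i (b i)) ++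
    ((List.range (g - 2)).flatMap fun i => odds T i (β i) (ρ i))

theorem evens_L (T i : ℕ) (b : Fin 4 → ℕ) (hb : ∀ a, b a ≤ T) :
    ((evens T i b).map L).sum = ((evens T i fun _ => 0).map L).sum := by
  obtain ⟨A, P0, P1, h⟩ := evB_poly i
  have h1 := fun t => (h t).1
  have c : ∀ a, ((T - b a : ℕ) : ℤ) = (T : ℤ) - (b a : ℤ) := fun a => Nat.cast_sub (hb a)
  simp only [evens, List.map_cons, List.map_nil, List.sum_cons, List.sum_nil, h1, c, Nat.cast_add, map_add,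
    map_sub, Nat.sub_zero, Nat.cast_zero, add_zero]
  ring

theorem evens_E (T i : ℕ) (b : Fin 4 → ℕ) (hb : ∀ a, b a ≤ T) :
    ((evens T i b).map E).sum = ((evens T i fun _ => 0).map E).sum +
      2 * C ((b 0 : ℤ) ^ 2 + (b 1 : ℤ) ^ 2 + (b 2 : ℤ) ^ 2 + (b 3 : ℤ) ^ 2) * (X ^ 2 - X ^ (2 * i + 4)) := by
  obtain ⟨A, P0, P1, h⟩ := evB_poly i
  have h1 := fun t => (h t).2
  have c : ∀ a, ((T - b a : ℕ) : ℤ) = (T : ℤ) - (b a : ℤ) := fun a => Nat.cast_sub (hb a)
  simp only [evens, List.map_cons, List.map_nil, List.sum_cons, List.sum_nil, h1, c, Nat.cast_add, map_add,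
    map_sub, Nat.sub_zero, Nat.cast_zero, add_zero, map_pow]
  ring

theorem odds_L (T i β ρ : ℕ) (hβ : β ≤ T) (hρ : ρ ≤ T) :
    ((odds T i β ρ).map L).sum = ((odds T i 0 0).map L).sum := by
  obtain ⟨A, P00, P10, P01, P20, h⟩ := odB_poly i
  have h1 := fun α β => (h α β).1
  have c1 : ((T - β : ℕ) : ℤ) = (T : ℤ) - (β : ℤ) := Nat.cast_sub hβ
  have c2 : ((T - ρ : ℕ) : ℤ) = (T : ℤ) - (ρ : ℤ) := Nat.cast_sub hρ
  simp only [odds, List.map_cons, List.map_nil, List.sum_cons, List.sum_nil, h1, c1, c2,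
    map_sub, Nat.sub_zero, Nat.cast_zero, add_zero, map_zero, zero_mul]
  ring

theorem odds_E (T i β ρ : ℕ) (hβ : β ≤ T) (hρ : ρ ≤ T) :
    ((odds T i β ρ).map E).sum = ((odds T i 0 0).map E).sum +
      2 * C ((T : ℤ) * β + ρ) * (X ^ 3 - X ^ (2 * i + 5)) -
      2 * C ((β : ℤ) * (T - β) + (ρ : ℤ) * (T - ρ)) * (X ^ 2 - X ^ (2 * i + 6)) := by
  obtain ⟨A, P00, P10, P01, P20, h⟩ := odB_poly i
  have h1 := fun α β => (h α β).2
  have c1 : ((T - β : ℕ) : ℤ) = (T : ℤ) - (β : ℤ) := Nat.cast_sub hβ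
  have c2 : ((T - ρ : ℕ) : ℤ) = (T : ℤ) - (ρ : ℤ) := Nat.cast_sub hρ
  simp only [odds, List.map_cons, List.map_nil, List.sum_cons, List.sum_nil, h1, c1, c2,
    map_sub, Nat.sub_zero, Nat.cast_zero, add_zero, map_zero, zero_mul, map_add, map_mul, Nat.cast_one, map_one]
  ring

/-- the total change of `E` -/
noncomputable def chg (g T : ℕ) (b : ℕ → Fin 4 → ℕ) (β ρ : ℕ → ℕ) : ℤ[X] :=
  (∑ i ∈ range (g - 1), C ((b i 0 : ℤ) ^ 2 + (b i 1 : ℤ) ^ 2 + (b i 2 : ℤ) ^ 2 + (b i 3 : ℤ) ^ 2) *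
      (X ^ 2 - X ^ (2 * i + 4))) +
    ∑ i ∈ range (g - 2), (C ((T : ℤ) * β i + ρ i) * (X ^ 3 - X ^ (2 * i + 5)) -
      C ((β i : ℤ) * (T - β i) + (ρ i : ℤ) * (T - ρ i)) * (X ^ 2 - X ^ (2 * i + 6)))

theorem gadg_L (g T : ℕ) (b : ℕ → Fin 4 → ℕ) (β ρ : ℕ → ℕ) (hb : ∀ i a, b i a ≤ T) (hβ : ∀ i, β i ≤ T)
    (hρ : ∀ i, ρ i ≤ T) : ((gadg g T b β ρ).map L).sum =
      ((gadg g T (fun _ _ => 0) (fun _ => 0) (fun _ => 0)).map L).sum := by
  unfold gadg
  rw [List.map_append, List.sum_append, List.map_append, List.sum_append, sum_flatMap, sum_flatMap,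
    sum_flatMap, sum_flatMap]
  congr 1
  · exact Finset.sum_congr rfl fun i _ => evens_L T i _ (hb i)
  · exact Finset.sum_congr rfl fun i _ => odds_L T i _ _ (hβ i) (hρ i)

theorem gadg_E (g T : ℕ) (b : ℕ → Fin 4 → ℕ) (β ρ : ℕ → ℕ) (hb : ∀ i a, b i a ≤ T) (hβ : ∀ i, β i ≤ T)
    (hρ : ∀ i, ρ i ≤ T) : ((gadg g T b β ρ).map E).sum =
      ((gadg g T (fun _ _ => 0) (fun _ => 0) (fun _ => 0)).map E).sum + 2 * chg g T b β ρ := by
  unfold gadg chg
  rw [List.map_append, List.sum_append, List.map_append, List.sum_append, sum_flatMap, sum_flatMap,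
    sum_flatMap, sum_flatMap]
  have h1 : ∑ i ∈ range (g - 1), ((evens T i (b i)).map E).sum =
      ∑ i ∈ range (g - 1), (((evens T i fun _ => 0).map E).sum + 2 * (C ((b i 0 : ℤ) ^ 2 + (b i 1 : ℤ) ^ 2 +
        (b i 2 : ℤ) ^ 2 + (b i 3 : ℤ) ^ 2) * (X ^ 2 - X ^ (2 * i + 4)))) :=
    Finset.sum_congr rfl fun i _ => by rw [evens_E T i _ (hb i)]; ring
  have h2 : ∑ i ∈ range (g - 2), ((odds T i (β i) (ρ i)).map E).sum =
      ∑ i ∈ range (g - 2), (((odds T i 0 0).map E).sum + 2 * (C ((T : ℤ) * β i + ρ i) *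
        (X ^ 3 - X ^ (2 * i + 5)) - C ((β i : ℤ) * (T - β i) + (ρ i : ℤ) * (T - ρ i)) *
          (X ^ 2 - X ^ (2 * i + 6)))) :=
    Finset.sum_congr rfl fun i _ => by rw [odds_E T i _ _ (hβ i) (hρ i)]; ring
  rw [h1, h2, Finset.sum_add_distrib, Finset.sum_add_distrib, ← Finset.mul_sum, ← Finset.mul_sum]
  ring

theorem gadg_ht (g T : ℕ) (b : ℕ → Fin 4 → ℕ) (β ρ : ℕ → ℕ) : ∀ t ∈ gadg g T b β ρ, ht t + 1 ≤ g := by
  intro t h
  unfold gadg at h
  rw [List.mem_append, List.mem_flatMap, List.mem_flatMap] at h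
  rcases h with ⟨i, hi, h⟩ | ⟨i, hi, h⟩
  · rw [List.mem_range] at hi
    simp only [evens, List.mem_cons, List.not_mem_nil, or_false] at h
    rcases h with rfl | rfl | rfl | rfl | rfl | rfl | rfl | rfl <;>
    · refine le_trans (Nat.add_le_add_right (ht_evB i _) 1) ?_
      omega
  · rw [List.mem_range] at hi
    simp only [odds, List.mem_cons, List.not_mem_nil, or_false] at h
    rcases h with rfl | rfl | rfl | rfl <;>
    · refine le_trans (Nat.add_le_add_right (ht_odB i _ _) 1) ?_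
      omega

/-- the tree -/
def tree (g : ℕ) (m : ℕ → ℕ) (bs : List RT) : RT :=
  arm (fun i => if i = g - 1 then att (lv pt (m i)) bs else lv pt (m i)) (2 * g - 2)

theorem tree_ell (g : ℕ) (m : ℕ → ℕ) (bs : List RT) (i : ℕ) :
    L (if i = g - 1 then att (lv pt (m i)) bs else lv pt (m i)) =
      ell (g - 1) (X * (bs.map L).sum) m i := by
  unfold ell
  split_ifs with h
  · rw [L_att, L_lv, L_pt]
  · rw [L_lv, L_pt, add_zero]

theorem L_tree (g : ℕ) (m : ℕ → ℕ) (bs : List RT) :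
    L (tree g m bs) = ∑ i ∈ range (2 * g - 2 + 1), X ^ i * ell (g - 1) (X * (bs.map L).sum) m i := by
  unfold tree
  rw [L_arm]
  exact Finset.sum_congr rfl fun i _ => by rw [tree_ell]

theorem W_tree (g : ℕ) (hg : 2 ≤ g) (m : ℕ → ℕ) (bs : List RT) :
    2 * W (tree g m bs) = twoW (2 * g - 2) (g - 1) (X * (bs.map L).sum) (bs.map E).sum m := by
  unfold tree twoW
  rw [W_arm]
  have h1 : ∑ i ∈ range (2 * g - 2 + 1), (2 * W (if i = g - 1 then att (lv pt (m i)) bs else lv pt (m i)) -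
      L (if i = g - 1 then att (lv pt (m i)) bs else lv pt (m i)) ^ 2) =
      ∑ i ∈ range (2 * g - 2 + 1), ((-1 - C (m i : ℤ) * X ^ 2) + if i = g - 1 then (bs.map E).sum else 0) := by
    refine Finset.sum_congr rfl fun i _ => ?_
    have h2 := W_lv pt (m i)
    have h3 := L_lv pt (m i)
    rw [L_pt, W_pt] at h2
    rw [L_pt] at h3
    split_ifs with h
    · have h4 := W_att (lv pt (m i)) bs
      rw [h3] at h4
      linear_combination h4 + h2
    · rw [h3]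
      linear_combination h2
  rw [h1, Finset.sum_add_distrib, Finset.sum_ite_eq', if_pos (by rw [mem_range]; omega)]
  simp only [tree_ell]
  have h5 : ∑ i ∈ range (2 * g - 2 + 1), (-1 - C (m i : ℤ) * X ^ 2 : ℤ[X]) =
      - C (((2 * g - 2 : ℕ) : ℤ) + 1) - X ^ 2 * C (∑ i ∈ range (2 * g - 2 + 1), (m i : ℤ)) := by
    rw [Finset.sum_sub_distrib, Finset.sum_const, card_range, ← Finset.sum_mul, map_sum]
    simp only [nsmul_eq_mul, map_add, map_natCast, map_one]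
    push_cast
    ring
  rw [h5]
  ring

end RT

end Pool.Agent.Helper96.WT
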