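import Pool.Agent.Helper96.WT.Main
import Pool.Agent.Helper96.WT.A

/-!
# Trees with rational Wiener roots, from the parts
-/

set_option autoImplicit false

namespace Pool.Agent.Helper96.WT

open Polynomial Finset RT

section graph

variable {V : Type*} [Fintype V] (G : SimpleGraph V)

open Classical in
theorem wiener_coeff (k : ℕ) : (wienerPoly G).coeff k =
    1 / 2 * ∑ u : V, ∑ v : V, (if u = v then 0 else if k = G.dist u v then 1 else 0 : ℚ) := by
  unfold wienerPoly
  rw [coeff_C_mul, finsetSum_coeff]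
  congr 1
  refine Finset.sum_congr rfl fun u _ => ?_
  rw [finsetSum_coeff]
  refine Finset.sum_congr rfl fun v _ => ?_
  split_ifs with h1 h2
  · simp
  · rw [coeff_X_pow, if_pos h2]
  · rw [coeff_X_pow, if_neg h2]

theorem wiener_coeff_pos (u v : V) (h : u ≠ v) : 0 < (wienerPoly G).coeff (G.dist u v) := by
  classical
  rw [wiener_coeff]
  apply mul_pos (by norm_num)
  apply Finset.sum_pos'
  · intro a _
    apply Finset.sum_nonneg
    intro b _
    split_ifs <;> norm_num
  · refine ⟨u, mem_univ u, ?_⟩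
    apply Finset.sum_pos'
    · intro b _
      split_ifs <;> norm_num
    · refine ⟨v, mem_univ v, ?_⟩
      rw [if_neg h, if_pos rfl]
      norm_num

theorem exists_of_coeff (k : ℕ) (h : (wienerPoly G).coeff k ≠ 0) : ∃ u v, G.dist u v = k := by
  classical
  rw [wiener_coeff] at h
  have h1 := right_ne_zero_of_mul h
  obtain ⟨u, _, hu⟩ := Finset.exists_ne_zero_of_sum_ne_zero h1
  obtain ⟨v, _, hv⟩ := Finset.exists_ne_zero_of_sum_ne_zero hu
  refine ⟨u, v, ?_⟩
  by_contra h2
  apply hv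
  split_ifs with h3 h4
  · rfl
  · exact absurd h4.symm h2
  · rfl

end graph

theorem tgt_lead (h a n : ℕ) (hh : 1 ≤ h) (hn : (n : ℚ) ≠ 1)
    (hu : (n : ℚ) / (2 * (eP h a).eval 1) - 1 ≠ 0) (ha : 1 ≤ a) :
    (tgt h a n).natDegree = h + 2 ∧ tgt h a n ≠ 0 := by
  have d : ∀ q : ℚ, q ≠ 0 → (1 + C q * X : ℚ[X]).natDegree = 1 ∧ (1 + C q * X : ℚ[X]) ≠ 0 := by
    intro q hq
    have e : (1 + C q * X : ℚ[X]) = C q * X + C 1 := by rw [map_one]; ring
    rw [e]
    refine ⟨natDegree_linear hq, ?_⟩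
    intro h0
    have := natDegree_linear (a := q) (b := 1) hq
    rw [h0] at this
    simp at this
  have ha' : (1 : ℚ) / (a : ℚ) ≠ 0 := by
    have : (a : ℚ) ≠ 0 := by exact_mod_cast (by omega : a ≠ 0)
    exact one_div_ne_zero this
  have ha'' : (1 : ℚ) / ((a : ℚ) + 1) ≠ 0 := by
    have : (a : ℚ) + 1 ≠ 0 := by positivity
    exact one_div_ne_zero this
  obtain ⟨d1, n1⟩ := d _ hu
  obtain ⟨d2, n2⟩ := d _ ha'
  obtain ⟨d3, n3⟩ := d _ ha''
  have hn' : (n : ℚ) - 1 ≠ 0 := sub_ne_zero.2 hn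
  have n0 : (C ((n : ℚ) - 1) * X : ℚ[X]) ≠ 0 := mul_ne_zero (by rwa [Ne, C_eq_zero]) X_ne_zero
  have d0 : (C ((n : ℚ) - 1) * X : ℚ[X]).natDegree = 1 := natDegree_C_mul_X _ hn'
  have n4 : eP h a ≠ 0 := mul_ne_zero (pow_ne_zero _ n2) n3
  have d4 : (eP h a).natDegree = h := by
    unfold eP
    rw [natDegree_mul (pow_ne_zero _ n2) n3, natDegree_pow, d2, d3]
    omega
  constructor
  · unfold tgt
    rw [natDegree_mul (mul_ne_zero n0 n1) n4, natDegree_mul n0 n1, d0, d1, d4]
    omega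
  · unfold tgt
    exact mul_ne_zero (mul_ne_zero n0 n1) n4

theorem lin_root (q : ℚ) (z : ℂ) (h : (1 : ℂ) + (q : ℂ) * z = 0) : ∃ r : ℚ, z = (r : ℂ) := by
  have hq : (q : ℂ) ≠ 0 := by
    intro h0
    rw [h0, zero_mul, add_zero] at h
    exact one_ne_zero h
  refine ⟨-1 / q, ?_⟩
  push_cast
  field_simp
  linear_combination h

theorem tgt_roots (h a n : ℕ) (hn : (n : ℚ) ≠ 1) (z : ℂ) (hz : aeval z (tgt h a n) = 0) :
    ∃ r : ℚ, z = (r : ℂ) := by
  unfold tgt at hz
  nth_rewrite 2 [eP] at hz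
  simp only [map_mul, map_pow, map_add, map_one, aeval_X, aeval_C, mul_eq_zero, eq_ratCast] at hz
  rcases hz with ((hz | hz) | hz) | hz | hz
  · exfalso
    apply hn
    have h1 : ((n : ℚ) - 1 : ℚ) = 0 := by exact_mod_cast hz
    linarith
  · exact ⟨0, by rw [hz]; simp⟩
  · exact lin_root _ z hz
  · exact lin_root _ z (eq_zero_of_pow_eq_zero hz)
  · exact lin_root _ z hz

/-- For every `g ≥ 2` and `N` there is a tree with more than `N` vertices and diameter `2 g` all of
whose Wiener roots are rational. -/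
theorem main (hA : S_A) (hC : S_C) (hD : S_D) (g : ℕ) (hg : 2 ≤ g) (N : ℕ) :
    ∃ (V : Type) (_ : Fintype V) (G : SimpleGraph V), G.IsTree ∧ N < Fintype.card V ∧
      (∀ u v, G.dist u v ≤ 2 * g) ∧ (∃ u v, G.dist u v = 2 * g) ∧ wienerPoly G ≠ 0 ∧
      ∀ z : ℂ, aeval z (wienerPoly G) = 0 → ∃ r : ℚ, z = (r : ℂ) := by
  obtain ⟨M, hM⟩ := exists_nat_gt (2 * (eP (2 * g - 2) (8 * (2 * g - 2))).eval 1)
  obtain ⟨n, t, hn, hn1, ht⟩ := exact_tree hC hD g hg (max M (N + 1))
  obtain ⟨V, hV, G, hG, hW⟩ := hA t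
  have hnM : M ≤ n := (le_max_left _ _).trans hn
  have hnN : N + 1 ≤ n := (le_max_right _ _).trans hn
  have hpos := eP_one_pos (2 * g - 2) (8 * (2 * g - 2))
  have hnq : (n : ℚ) ≠ 1 := by
    have : n ≠ 1 := by omega
    exact_mod_cast this
  have hu : (n : ℚ) / (2 * (eP (2 * g - 2) (8 * (2 * g - 2))).eval 1) - 1 ≠ 0 := by
    have h1 : (M : ℚ) ≤ n := by exact_mod_cast hnM
    have h2 : 1 < (n : ℚ) / (2 * (eP (2 * g - 2) (8 * (2 * g - 2))).eval 1) := by
      rw [lt_div_iff₀ (by positivity)]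
      linarith
    linarith
  obtain ⟨hdeg, hne⟩ := tgt_lead (2 * g - 2) (8 * (2 * g - 2)) n (by omega) hnq hu (by omega)
  rw [← ht, ← hW] at hdeg hne
  have hdeg' : (wienerPoly G).natDegree = 2 * g := by omega
  have hcard : Fintype.card V = n := by
    have h1 : (wienerPoly G).coeff 1 = (n : ℚ) - 1 := by rw [hW, ht, tgt_coeff_one]
    have h2 : (wienerPoly G).eval 1 = ((n : ℚ) - 1) * n / 2 := by rw [hW, ht, tgt_one]
    have h3 : (wienerPoly G).eval 1 = ((Fintype.card V : ℚ) - 1) * Fintype.card V / 2 := by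
      classical
      unfold wienerPoly
      rw [eval_mul, eval_C, eval_finsetSum]
      have e : ∀ u ∈ (Finset.univ : Finset V), eval (1 : ℚ) (∑ v : V, if u = v then (0 : ℚ[X]) else X ^ G.dist u v) =
          (Fintype.card V : ℚ) - 1 := by
        intro u _
        rw [eval_finsetSum]
        have e1 : ∀ v ∈ (Finset.univ : Finset V), eval (1 : ℚ) (if u = v then (0 : ℚ[X]) else X ^ G.dist u v) =
            1 - if u = v then 1 else 0 := by
          intro v _
          split_ifs <;> simp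
        rw [Finset.sum_congr rfl e1, Finset.sum_sub_distrib, Finset.sum_ite_eq, if_pos (mem_univ _)]
        simp
      have e2 := Finset.sum_congr rfl e
      rw [Finset.sum_const, card_univ, nsmul_eq_mul] at e2
      have e3 : (∑ u : V, eval (1 : ℚ) (∑ v : V, if u = v then (0 : ℚ[X]) else X ^ G.dist u v)) =
          (Fintype.card V : ℚ) * ((Fintype.card V : ℚ) - 1) := e2
      convert congrArg (fun q : ℚ => 1 / 2 * q) e3 using 1
      ring
    rw [h2] at h3
    have h4 : ((n : ℚ) - Fintype.card V) * ((n : ℚ) + Fintype.card V - 1) = 0 := by linear_combination 2 * h3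
    rcases mul_eq_zero.1 h4 with h5 | h5
    · have : (n : ℚ) = Fintype.card V := by linarith
      exact_mod_cast this.symm
    · have h6 : (1 : ℚ) < n := by exact_mod_cast hn1
      have h7 : (0 : ℚ) ≤ Fintype.card V := by positivity
      linarith
  refine ⟨V, hV, G, hG, by omega, ?_, ?_, hne, ?_⟩
  · intro u v
    by_cases huv : u = v
    · rw [huv, SimpleGraph.dist_self]; omega
    · have h1 := wiener_coeff_pos G u v huv
      have h2 := le_natDegree_of_ne_zero h1.ne'
      omega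
  · apply exists_of_coeff
    rw [← hdeg', coeff_natDegree, Ne, leadingCoeff_eq_zero]
    exact hne
  · intro z hz
    rw [hW, ht] at hz
    exact tgt_roots _ _ _ hnq z hz

end Pool.Agent.Helper96.WT
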