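import Pool.Agent.Helper96.WT.Fin

/-!
# Main assembly: a rooted tree with the target polynomial
-/

set_option autoImplicit false

namespace Pool.Agent.Helper96.WT

open Polynomial Finset RT

theorem eP_one_pos (h a : ℕ) : 0 < (eP h a).eval 1 := by
  unfold eP
  simp only [eval_mul, eval_pow, eval_add, eval_one, eval_C, eval_X]
  positivity

theorem tgt_one (h a n : ℕ) : (tgt h a n).eval 1 = ((n : ℚ) - 1) * n / 2 := by
  have h0 := (eP_one_pos h a).ne'
  unfold tgt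
  simp only [eval_mul, eval_add, eval_one, eval_C, eval_X]
  field_simp
  ring

theorem tgt_deg (h a n : ℕ) (hh : 1 ≤ h) : (tgt h a n).natDegree ≤ h + 2 := by
  unfold tgt eP
  have d : ∀ q : ℚ, (1 + C q * X : ℚ[X]).natDegree ≤ 1 := by
    intro q
    refine (natDegree_add_le _ _).trans (max_le (by simp) ?_)
    exact (natDegree_C_mul_le _ _).trans (by simp)
  refine natDegree_mul_le.trans ?_
  have e1 : (C ((n : ℚ) - 1) * X * (1 + C ((n : ℚ) / (2 * eval 1 ((1 + C (1 / (a : ℚ)) * X) ^ (h - 1) *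
      (1 + C (1 / ((a : ℚ) + 1)) * X))) - 1) * X)).natDegree ≤ 2 := by
    refine natDegree_mul_le.trans ?_
    have e2 : (C ((n : ℚ) - 1) * X).natDegree ≤ 1 := (natDegree_C_mul_le _ _).trans (by simp)
    have e3 := d ((n : ℚ) / (2 * eval 1 ((1 + C (1 / (a : ℚ)) * X) ^ (h - 1) *
      (1 + C (1 / ((a : ℚ) + 1)) * X))) - 1)
    omega
  have e4 : ((1 + C (1 / (a : ℚ)) * X) ^ (h - 1) * (1 + C (1 / ((a : ℚ) + 1)) * X) : ℚ[X]).natDegree ≤ h := by
    refine natDegree_mul_le.trans ?_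
    have e5 := natDegree_pow_le_of_le (h - 1) (d (1 / (a : ℚ)))
    have e6 := d (1 / ((a : ℚ) + 1))
    omega
  omega

theorem tgt_coeff_zero (h a n : ℕ) : (tgt h a n).coeff 0 = 0 := by
  unfold tgt
  simp [mul_coeff_zero]

theorem tgt_coeff_one (h a n : ℕ) : (tgt h a n).coeff 1 = (n : ℚ) - 1 := by
  have e : tgt h a n = X * (C ((n : ℚ) - 1) * (1 + C ((n : ℚ) / (2 * (eP h a).eval 1) - 1) * X) * eP h a) := by
    unfold tgt; ring
  rw [e, show (1 : ℕ) = 0 + 1 from rfl, coeff_X_mul, mul_coeff_zero, mul_coeff_zero]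
  have : (eP h a).coeff 0 = 1 := by
    unfold eP
    rw [coeff_zero_eq_eval_zero]
    simp
  rw [this]
  simp

/-- the core: exact realisation -/
theorem exact_tree (hC : S_C) (hD : S_D) (g : ℕ) (hg : 2 ≤ g) (N0 : ℕ) : ∃ (n : ℕ) (t : RT), N0 ≤ n ∧ 1 < n ∧
    (W t).map (Int.castRingHom ℚ) = tgt (2 * g - 2) (8 * (2 * g - 2)) n := by
  obtain ⟨N1, hN1⟩ := hC g hg (2548 * g ^ 2 * (g + 1) ^ 2)
  obtain ⟨n, s, P, hn, hP, hs, hs1, hs2⟩ := hD g hg (max (max N1 N0) 2)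
  have hnN1 : N1 ≤ n := ((le_max_left _ _).trans (le_max_left _ _)).trans hn
  have hnN0 : N0 ≤ n := ((le_max_right _ _).trans (le_max_left _ _)).trans hn
  have hn2 : 2 ≤ n := (le_max_right _ _).trans hn
  refine ⟨n, ?_⟩
  -- parity
  have hpar : n % 2 = s % 2 := by
    have h1 : ((s : ℤ) ^ 2 - s) % 2 = 0 := by
      have h2 : (s : ℤ) ^ 2 - s = (s : ℤ) * (s - 1) := by ring
      rw [h2]
      exact Int.emod_eq_zero_of_dvd (even_iff_two_dvd.1 (Int.even_mul_pred_self _))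
    omega
  obtain ⟨T, hT⟩ : ∃ T, T = Nat.sqrt (4 * n) + 1 := ⟨_, rfl⟩
  have hT1 : 1 ≤ T := by omega
  have hT2 : 4 * n < T * T := by rw [hT]; exact Nat.lt_succ_sqrt _
  have hT3 : T * T ≤ 13 * n := by
    have h1 := Nat.sqrt_le (4 * n)
    have h2 : Nat.sqrt (4 * n) ≤ 4 * n := Nat.sqrt_le_self _
    rw [hT]
    nlinarith
  -- default gadgets
  obtain ⟨bs0, hbs0⟩ : ∃ bs0, bs0 = gadg g T (fun _ _ => 0) (fun _ => 0) (fun _ => 0) := ⟨_, rfl⟩
  obtain ⟨Γ, hΓ⟩ : ∃ Γ, Γ = X * (bs0.map L).sum := ⟨_, rfl⟩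
  obtain ⟨E0, hE0⟩ : ∃ E0, E0 = (bs0.map E).sum := ⟨_, rfl⟩
  have hΓn : ∀ k, 0 ≤ Γ.coeff k := by rw [hΓ]; exact X_mul_nonneg (sum_L_nonneg bs0)
  have hΓ1 : Γ.eval 1 = ((bs0.map L).sum).eval 1 := by rw [hΓ]; simp
  have hΓ0 : 0 ≤ Γ.eval 1 := (hΓn 0).trans (coeff_le_eval_one hΓn 0)
  have hsize : Γ.eval 1 ≤ 12 * (g : ℤ) * (g + 1) * T := by rw [hΓ1, hbs0]; exact gadg_size g T hT1
  have hK : (((2 * g - 2 : ℕ) : ℤ) + 1 + Γ.eval 1) ^ 2 ≤ ((2548 * g ^ 2 * (g + 1) ^ 2 : ℕ) : ℤ) * n := by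
    have h1 : ((2 * g - 2 : ℕ) : ℤ) + 1 ≤ 2 * (g : ℤ) * (g + 1) * T := by
      have h2 : ((2 * g - 2 : ℕ) : ℤ) + 1 ≤ 2 * (g : ℤ) := by omega
      have h3 : (1 : ℤ) ≤ ((g : ℤ) + 1) * T := by
        have : (1 : ℤ) ≤ T := by exact_mod_cast hT1
        nlinarith
      nlinarith
    have h4 : ((2 * g - 2 : ℕ) : ℤ) + 1 + Γ.eval 1 ≤ 14 * (g : ℤ) * (g + 1) * T := by linarith
    have h5 : (0 : ℤ) ≤ ((2 * g - 2 : ℕ) : ℤ) + 1 + Γ.eval 1 := by positivity
    have h6 : ((T : ℤ)) ^ 2 ≤ 13 * n := by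
      have : ((T * T : ℕ) : ℤ) ≤ ((13 * n : ℕ) : ℤ) := by exact_mod_cast hT3
      push_cast at this
      rw [pow_two]; exact this
    calc (((2 * g - 2 : ℕ) : ℤ) + 1 + Γ.eval 1) ^ 2 ≤ (14 * (g : ℤ) * (g + 1) * T) ^ 2 :=
          pow_le_pow_left₀ h5 h4 2
      _ = (196 * (g : ℤ) ^ 2 * (g + 1) ^ 2) * (T : ℤ) ^ 2 := by ring
      _ ≤ (196 * (g : ℤ) ^ 2 * (g + 1) ^ 2) * (13 * n) := mul_le_mul_of_nonneg_left h6 (by positivity)
      _ = _ := by push_cast; ring
  have hE : ∀ k, |E0.coeff k| ≤ ((2548 * g ^ 2 * (g + 1) ^ 2 : ℕ) : ℤ) * n := by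
    intro k
    refine le_trans ?_ hK
    rw [hE0]
    refine (sum_E_coeff bs0 k).trans ?_
    rw [← hΓ1]
    apply pow_le_pow_left₀ hΓ0
    have : (0 : ℤ) ≤ ((2 * g - 2 : ℕ) : ℤ) := by positivity
    linarith
  obtain ⟨m, hm1, hm2, hm3⟩ := hN1 n s hnN1 hs1 hs2 hpar Γ E0 hΓn hK hE
  have hW0 := W_tree g hg m bs0
  rw [← hΓ, ← hE0] at hW0
  obtain ⟨T0, hT0⟩ : ∃ T0, T0 = tree g m bs0 := ⟨_, rfl⟩
  rw [← hT0] at hW0
  -- residuals
  obtain ⟨r, hr⟩ : ∃ r : ℕ → ℤ, r = fun k => (W T0).coeff k - P.coeff k := ⟨_, rfl⟩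
  have hr1 : ∀ k, 4 ≤ k → k ≤ 2 * g → 0 ≤ r k ∧ r k ≤ 2 * n := by
    intro k hk1 hk2
    have h1 := hm3 k hk1 (by omega)
    rw [← hP, ← hW0] at h1
    have e1 : (2 * W T0 : ℤ[X]) = C 2 * W T0 := rfl
    rw [e1, coeff_C_mul, coeff_map] at h1
    have h2 : |2 * P.coeff k + 2 * (n : ℤ) - 2 * (W T0).coeff k| ≤ 2 * (n : ℤ) := by
      simp only [eq_intCast] at h1
      exact_mod_cast h1
    rw [abs_le] at h2
    rw [hr]
    constructor
    · show 0 ≤ (W T0).coeff k - P.coeff k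
      linarith [h2.1, h2.2]
    · show (W T0).coeff k - P.coeff k ≤ 2 * n
      linarith [h2.1, h2.2]
  obtain ⟨β, hβ⟩ : ∃ β : ℕ → ℕ, β = fun i => if i < g - 2 then (r (2 * i + 5)).toNat / T else 0 := ⟨_, rfl⟩
  obtain ⟨ρ, hρ⟩ : ∃ ρ : ℕ → ℕ, ρ = fun i => if i < g - 2 then (r (2 * i + 5)).toNat % T else 0 := ⟨_, rfl⟩
  have hρT : ∀ i, ρ i ≤ T := by
    intro i
    rw [hρ]; dsimp only
    split_ifs
    · exact (Nat.mod_lt _ (by omega)).le
    · omega
  have hβT : ∀ i, β i ≤ T := by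
    intro i
    rw [hβ]; dsimp only
    split_ifs with h
    · have h1 := hr1 (2 * i + 5) (by omega) (by omega)
      apply Nat.le_of_lt_succ
      apply Nat.lt_succ_of_le
      apply Nat.div_le_of_le_mul
      have h2 : ((r (2 * i + 5)).toNat : ℤ) ≤ ((T * T : ℕ) : ℤ) := by
        rw [Int.toNat_of_nonneg h1.1]
        have : ((4 * n : ℕ) : ℤ) < ((T * T : ℕ) : ℤ) := by exact_mod_cast hT2
        push_cast at this ⊢
        linarith [h1.2]
      exact_mod_cast h2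
    · omega
  have hz : ∀ i, i < g - 2 → (T : ℤ) * β i + ρ i = r (2 * i + 5) := by
    intro i hi
    have h1 := hr1 (2 * i + 5) (by omega) (by omega)
    rw [hβ, hρ]; dsimp only
    rw [if_pos hi, if_pos hi]
    have h2 := Nat.div_add_mod (r (2 * i + 5)).toNat T
    have h3 : ((T * ((r (2 * i + 5)).toNat / T) + (r (2 * i + 5)).toNat % T : ℕ) : ℤ) =
        r (2 * i + 5) := by
      rw [h2, Int.toNat_of_nonneg h1.1]
    push_cast at h3 ⊢
    exact h3
  obtain ⟨w, hw⟩ : ∃ w : ℕ → ℤ, w = fun i => (β i : ℤ) * (T - β i) + (ρ i : ℤ) * (T - ρ i) := ⟨_, rfl⟩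
  have hw1 : ∀ i, 0 ≤ w i ∧ 2 * w i ≤ (T : ℤ) * T := by
    intro i
    rw [hw]; dsimp only
    have h1 : (β i : ℤ) ≤ T := by exact_mod_cast hβT i
    have h2 : (ρ i : ℤ) ≤ T := by exact_mod_cast hρT i
    have h3 : (0 : ℤ) ≤ β i := by positivity
    have h4 : (0 : ℤ) ≤ ρ i := by positivity
    constructor
    · have := mul_nonneg h3 (sub_nonneg.2 h1)
      have := mul_nonneg h4 (sub_nonneg.2 h2)
      linarith
    · nlinarith [sq_nonneg ((T : ℤ) - 2 * β i), sq_nonneg ((T : ℤ) - 2 * ρ i)]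
  obtain ⟨y, hy⟩ : ∃ y : ℕ → ℤ, y = fun j => if j < g - 1 then r (2 * j + 4) + (if j = 0 then 0 else w (j - 1))
    else 0 := ⟨_, rfl⟩
  have hy1 : ∀ j, 0 ≤ y j ∧ y j ≤ (T : ℤ) * T := by
    intro j
    rw [hy]; dsimp only
    have h0 : ((4 * n : ℕ) : ℤ) < ((T * T : ℕ) : ℤ) := by exact_mod_cast hT2
    push_cast at h0
    split_ifs with h1 h2
    · have h3 := hr1 (2 * j + 4) (by omega) (by omega)
      constructor <;> nlinarith [h3.1, h3.2]
    · have h3 := hr1 (2 * j + 4) (by omega) (by omega)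
      have h4 := hw1 (j - 1)
      constructor <;> nlinarith [h3.1, h3.2, h4.1, h4.2]
    · constructor
      · exact le_rfl
      · positivity
  have hfour : ∀ j, ∃ b : Fin 4 → ℕ, (b 0 : ℤ) ^ 2 + (b 1 : ℤ) ^ 2 + (b 2 : ℤ) ^ 2 + (b 3 : ℤ) ^ 2 = y j := by
    intro j
    obtain ⟨p, q, u, v, h⟩ := Nat.sum_four_squares (y j).toNat
    refine ⟨![p, q, u, v], ?_⟩
    have h1 : ((p ^ 2 + q ^ 2 + u ^ 2 + v ^ 2 : ℕ) : ℤ) = y j := by
      rw [h, Int.toNat_of_nonneg (hy1 j).1]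
    push_cast at h1
    simpa using h1
  choose b hb using hfour
  have hbT : ∀ j a, b j a ≤ T := by
    intro j a
    have h1 := hb j
    have h2 := (hy1 j).2
    have h3 : ((b j a : ℤ)) ^ 2 ≤ (T : ℤ) ^ 2 := by
      have h4 : ((b j a : ℤ)) ^ 2 ≤ y j := by
        rw [← h1]
        have q0 := sq_nonneg (b j 0 : ℤ)
        have q1 := sq_nonneg (b j 1 : ℤ)
        have q2 := sq_nonneg (b j 2 : ℤ)
        have q3 := sq_nonneg (b j 3 : ℤ)
        fin_cases a
        · show (b j 0 : ℤ) ^ 2 ≤ _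
          linarith
        · show (b j 1 : ℤ) ^ 2 ≤ _
          linarith
        · show (b j 2 : ℤ) ^ 2 ≤ _
          linarith
        · show (b j 3 : ℤ) ^ 2 ≤ _
          linarith
      nlinarith
    have h5 : (b j a : ℤ) ≤ T := by
      exact (sq_le_sq₀ (by positivity) (by positivity)).1 h3
    exact_mod_cast h5
  -- the tree
  obtain ⟨bs, hbs⟩ : ∃ bs, bs = gadg g T b β ρ := ⟨_, rfl⟩
  obtain ⟨T1, hT1'⟩ : ∃ T1, T1 = tree g m bs := ⟨_, rfl⟩
  have hLbs : (bs.map L).sum = (bs0.map L).sum := by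
    rw [hbs, hbs0]; exact gadg_L g T b β ρ hbT hβT hρT
  have hEbs : (bs.map E).sum = (bs0.map E).sum + 2 * chg g T b β ρ := by
    rw [hbs, hbs0]; exact gadg_E g T b β ρ hbT hβT hρT
  have hW1 : W T1 = W T0 + chg g T b β ρ := by
    apply two_cancel
    rw [mul_add, hW0, hT1', W_tree g hg m bs, hLbs, hEbs, twoW_add, ← hΓ, ← hE0]
  have hL1 : L T1 = ∑ i ∈ range (2 * g - 2 + 1), X ^ i * ell (g - 1) Γ m i := by
    rw [hT1', L_tree, hLbs, ← hΓ]
  have hev1 : (L T1).eval 1 = n := by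
    rw [hL1, eval_finsetSum, ← hm1]
    have e : ∀ i ∈ range (2 * g - 2 + 1), (X ^ i * ell (g - 1) Γ m i).eval 1 =
        (1 + (m i : ℤ)) + if i = g - 1 then Γ.eval 1 else 0 := by
      intro i _
      unfold ell
      split_ifs <;> simp
    rw [Finset.sum_congr rfl e, Finset.sum_add_distrib, Finset.sum_ite_eq', if_pos (by rw [mem_range]; omega)]
  have hev2 : (L T1).eval (-1) = -(s : ℤ) := by
    rw [hL1, eval_finsetSum, ← hm2]
    have e : ∀ i ∈ range (2 * g - 2 + 1), (X ^ i * ell (g - 1) Γ m i).eval (-1) =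
        (-1) ^ i * (1 - (m i : ℤ)) + if i = g - 1 then (-1) ^ (g - 1) * Γ.eval (-1) else 0 := by
      intro i _
      unfold ell
      split_ifs with h
      · subst h; simp; ring
      · simp; ring
    rw [Finset.sum_congr rfl e, Finset.sum_add_distrib, Finset.sum_ite_eq', if_pos (by rw [mem_range]; omega)]
  -- final comparison
  have hfin : W T1 = P := by
    have hP0 : P.coeff 0 = 0 := by
      have h := congrArg (fun p => p.coeff 0) hP
      simp only [coeff_map, eq_intCast, tgt_coeff_zero] at h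
      exact_mod_cast h
    have hP1 : P.coeff 1 = (n : ℤ) - 1 := by
      have h := congrArg (fun p => p.coeff 1) hP
      simp only [coeff_map, eq_intCast, tgt_coeff_one] at h
      exact_mod_cast h
    have hPe : 2 * P.eval 1 = ((n : ℤ) - 1) * n := by
      have h := congrArg (fun p => p.eval 1) hP
      simp only [tgt_one] at h
      have h2 : (P.map (Int.castRingHom ℚ)).eval 1 = ((P.eval 1 : ℤ) : ℚ) := by
        have := eval_intCast_map (Int.castRingHom ℚ) P 1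
        simpa using this
      rw [h2] at h
      have h3 : (2 : ℚ) * ((P.eval 1 : ℤ) : ℚ) = ((n : ℚ) - 1) * n := by rw [h]; ring
      exact_mod_cast h3
    have hPd : ∀ k, 2 * g < k → P.coeff k = 0 := by
      intro k hk
      have h := congrArg (fun p => p.coeff k) hP
      simp only [coeff_map, eq_intCast] at h
      rw [coeff_eq_zero_of_natDegree_lt (lt_of_le_of_lt (tgt_deg _ _ _ (by omega)) (by omega))] at h
      exact_mod_cast h
    have hk4 : ∀ k, 4 ≤ k → (W T1).coeff k = P.coeff k := by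
      intro k hk
      rcases Nat.lt_or_ge (2 * g) k with h1 | h1
      · rw [hPd k h1, hT1']
        apply tree_deg g hg m bs _ k h1
        rw [hbs]
        exact gadg_ht g T b β ρ
      · rw [hW1, coeff_add]
        rcases Nat.even_or_odd' k with ⟨j, hj | hj⟩
        · obtain ⟨i, rfl⟩ : ∃ i, j = i + 2 := ⟨j - 2, by omega⟩
          have hk' : k = 2 * i + 4 := by omega
          have hi : i < g - 1 := by omega
          rw [hk', chg_even g T b β ρ i hi, hb i, hy]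
          dsimp only
          rw [if_pos hi, hr, hw]
          dsimp only
          split_ifs <;> ring
        · obtain ⟨i, rfl⟩ : ∃ i, j = i + 2 := ⟨j - 2, by omega⟩
          have hk' : k = 2 * i + 5 := by omega
          have hi : i < g - 2 := by omega
          rw [hk', chg_odd g T b β ρ i hi, hz i hi, hr]
          dsimp only
          ring
    have h0 : (W T1).coeff 0 = P.coeff 0 := by rw [W_coeff_zero, hP0]
    have h1 : (W T1).coeff 1 = P.coeff 1 := by rw [W_coeff_one, hP1, hev1]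
    obtain ⟨Δ, hΔ⟩ : ∃ Δ : ℤ[X], Δ = W T1 - P := ⟨_, rfl⟩
    have hΔc : Δ = C (Δ.coeff 2) * X ^ 2 + C (Δ.coeff 3) * X ^ 3 := by
      ext k
      rw [coeff_add, coeff_C_mul, coeff_C_mul, coeff_X_pow, coeff_X_pow]
      rcases Nat.lt_or_ge k 4 with h4 | h4
      · interval_cases k
        · rw [hΔ]; simp [h0]
        · rw [hΔ]; simp [h1]
        · simp
        · simp
      · have : Δ.coeff k = 0 := by rw [hΔ, coeff_sub, hk4 k h4, sub_self]
        rw [this, if_neg (by omega), if_neg (by omega)]; ring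
    have hd1 : Δ.eval 1 = 0 := by
      rw [hΔ, eval_sub]
      have h2 := W_one T1
      rw [hev1] at h2
      have : 2 * ((W T1).eval 1 - P.eval 1) = 0 := by rw [mul_sub, h2, hPe]; ring
      omega
    have hd2 : Δ.eval (-1) = 0 := by
      rw [hΔ, eval_sub]
      have h2 := W_neg T1
      rw [hev1, hev2] at h2
      have : 2 * ((W T1).eval (-1) - P.eval (-1)) = 0 := by
        rw [mul_sub, h2]
        linear_combination -hs
      omega
    rw [hΔc] at hd1 hd2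
    simp only [eval_add, eval_mul, eval_C, eval_pow, eval_X, one_pow, mul_one] at hd1 hd2
    norm_num at hd2
    have e2 : Δ.coeff 2 = 0 := by omega
    have e3 : Δ.coeff 3 = 0 := by omega
    rw [e2, e3] at hΔc
    have : Δ = 0 := by rw [hΔc]; simp
    rw [hΔ, sub_eq_zero] at this
    exact this
  exact ⟨T1, hnN0, by omega, by rw [hfin, hP]⟩

end Pool.Agent.Helper96.WT
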