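import Pool.Agent.Helper96.WT.Stm

/-!
# Polynomials of rooted trees
-/

set_option autoImplicit false

namespace Pool.Agent.Helper96.WT

open Polynomial Finset

namespace RT

@[simp] theorem L_pt : L pt = 1 := rfl
@[simp] theorem L_gr (a b : RT) : L (gr a b) = L a + X * L b := rfl
@[simp] theorem W_pt : W pt = 0 := rfl
@[simp] theorem W_gr (a b : RT) : W (gr a b) = W a + W b + X * (L a * L b) := rfl

theorem L_coeff_zero (t : RT) : (L t).coeff 0 = 1 := by
  induction t with
  | pt => simp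
  | gr a b iha _ => simp [iha]

theorem mul_coeff_nonneg {p q : ℤ[X]} (hp : ∀ k, 0 ≤ p.coeff k) (hq : ∀ k, 0 ≤ q.coeff k) (k : ℕ) :
    0 ≤ (p * q).coeff k := by
  rw [coeff_mul]
  exact Finset.sum_nonneg fun x _ => mul_nonneg (hp _) (hq _)

theorem X_mul_nonneg {p : ℤ[X]} (hp : ∀ k, 0 ≤ p.coeff k) (k : ℕ) : 0 ≤ (X * p).coeff k := by
  cases k with
  | zero => simp
  | succ k => rw [coeff_X_mul]; exact hp k

theorem L_nonneg (t : RT) : ∀ k, 0 ≤ (L t).coeff k := by
  induction t with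
  | pt =>
    intro k
    rw [L_pt, coeff_one]
    split_ifs <;> norm_num
  | gr a b iha ihb =>
    intro k
    rw [L_gr, coeff_add]
    exact add_nonneg (iha k) (X_mul_nonneg ihb k)

theorem W_nonneg (t : RT) : ∀ k, 0 ≤ (W t).coeff k := by
  induction t with
  | pt => intro k; simp
  | gr a b iha ihb =>
    intro k
    rw [W_gr, coeff_add, coeff_add]
    exact add_nonneg (add_nonneg (iha k) (ihb k))
      (X_mul_nonneg (mul_coeff_nonneg (L_nonneg a) (L_nonneg b)) k)

theorem W_coeff_zero (t : RT) : (W t).coeff 0 = 0 := by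
  induction t with
  | pt => simp
  | gr a b iha ihb => simp [iha, ihb]

theorem W_coeff_one (t : RT) : (W t).coeff 1 = (L t).eval 1 - 1 := by
  induction t with
  | pt => simp
  | gr a b iha ihb =>
    rw [W_gr, coeff_add, coeff_add, iha, ihb, coeff_X_mul, mul_coeff_zero, L_coeff_zero, L_coeff_zero,
      L_gr]
    simp
    ring

theorem W_one (t : RT) : 2 * (W t).eval 1 = (L t).eval 1 ^ 2 - (L t).eval 1 := by
  induction t with
  | pt => simp
  | gr a b iha ihb =>
    rw [W_gr, L_gr]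
    simp only [eval_add, eval_mul, eval_X]
    linear_combination iha + ihb

theorem W_neg (t : RT) : 2 * (W t).eval (-1) = (L t).eval (-1) ^ 2 - (L t).eval 1 := by
  induction t with
  | pt => simp
  | gr a b iha ihb =>
    rw [W_gr, L_gr]
    simp only [eval_add, eval_mul, eval_X]
    linear_combination iha + ihb

/-- height -/
def ht : RT → ℕ
  | pt => 0
  | gr a b => max (ht a) (ht b + 1)

@[simp] theorem ht_pt : ht pt = 0 := rfl
@[simp] theorem ht_gr (a b : RT) : ht (gr a b) = max (ht a) (ht b + 1) := rfl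

theorem natDegree_X_mul_le {p : ℤ[X]} {k : ℕ} (h : p.natDegree ≤ k) : (X * p).natDegree ≤ k + 1 := by
  refine natDegree_mul_le.trans ?_
  rw [natDegree_X]
  omega

theorem L_deg (t : RT) : (L t).natDegree ≤ ht t := by
  induction t with
  | pt => simp
  | gr a b iha ihb =>
    rw [L_gr, ht_gr]
    refine (natDegree_add_le _ _).trans (max_le_max iha (natDegree_X_mul_le ihb))

theorem W_deg (t : RT) : (W t).natDegree ≤ 2 * ht t := by
  induction t with
  | pt => simp
  | gr a b iha ihb =>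
    rw [W_gr, ht_gr]
    have h1 := L_deg a
    have h2 := L_deg b
    have h3 : (L a * L b).natDegree ≤ ht a + ht b := natDegree_mul_le.trans (by omega)
    refine (natDegree_add_le _ _).trans (max_le ((natDegree_add_le _ _).trans (max_le ?_ ?_)) ?_)
    · omega
    · omega
    · refine (natDegree_X_mul_le h3).trans ?_
      omega

/-- contribution of a branch -/
noncomputable def E (t : RT) : ℤ[X] := 2 * W t - X ^ 2 * L t ^ 2

theorem E_pt : E pt = -X ^ 2 := by unfold E; simp

theorem E_gr_pt (b : RT) : E (gr pt b) = E b + X ^ 2 * L b ^ 2 + 2 * X * L b - X ^ 2 * (1 + X * L b) ^ 2 := by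
  unfold E
  rw [W_gr, L_gr, L_pt, W_pt]
  ring

/-- attach branches to the root -/
def att (t : RT) (bs : List RT) : RT := bs.foldl gr t

theorem L_att (t : RT) (bs : List RT) : L (att t bs) = L t + X * (bs.map L).sum := by
  induction bs generalizing t with
  | nil => simp [att]
  | cons b bs ih =>
    have : att t (b :: bs) = att (gr t b) bs := rfl
    rw [this, ih, L_gr, List.map_cons, List.sum_cons]
    ring

theorem W_att (t : RT) (bs : List RT) :
    2 * W (att t bs) = 2 * W t - L t ^ 2 + L (att t bs) ^ 2 + (bs.map E).sum := by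
  induction bs generalizing t with
  | nil => simp [att]
  | cons b bs ih =>
    have : att t (b :: bs) = att (gr t b) bs := rfl
    rw [this, ih, W_gr, L_gr, List.map_cons, List.sum_cons, E]
    ring

theorem ht_att (t : RT) (bs : List RT) (k : ℕ) (h : ht t ≤ k) (hb : ∀ b ∈ bs, ht b + 1 ≤ k) :
    ht (att t bs) ≤ k := by
  induction bs generalizing t with
  | nil => simpa [att] using h
  | cons b bs ih =>
    have : att t (b :: bs) = att (gr t b) bs := rfl
    rw [this]
    apply ih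
    · rw [ht_gr]
      exact max_le h (hb b (by simp))
    · intro c hc
      exact hb c (by simp [hc])

/-- attach `k` leaves to the root -/
def lv (t : RT) (k : ℕ) : RT := att t (List.replicate k pt)

theorem L_lv (t : RT) (k : ℕ) : L (lv t k) = L t + C (k : ℤ) * X := by
  unfold lv
  rw [L_att, List.map_replicate, List.sum_replicate, L_pt, nsmul_eq_mul, mul_one]
  simp [mul_comm]

theorem W_lv (t : RT) (k : ℕ) :
    2 * W (lv t k) = 2 * W t - L t ^ 2 + (L t + C (k : ℤ) * X) ^ 2 - C (k : ℤ) * X ^ 2 := by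
  have h := W_att t (List.replicate k pt)
  change 2 * W (lv t k) = 2 * W t - L t ^ 2 + L (lv t k) ^ 2 + _ at h
  rw [h, L_lv, List.map_replicate, List.sum_replicate, E_pt, nsmul_eq_mul]
  simp
  ring

theorem ht_lv (t : RT) (k : ℕ) : ht (lv t k) ≤ max (ht t) 1 := by
  apply ht_att
  · exact le_max_left _ _
  · intro b hb
    rw [List.mem_replicate] at hb
    rw [hb.2, ht_pt]
    exact le_max_right _ _

/-- a path above -/
def leg : ℕ → RT → RT
  | 0, t => t
  | k + 1, t => gr pt (leg k t)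

theorem leg_succ (k : ℕ) (t : RT) : leg (k + 1) t = gr pt (leg k t) := rfl

theorem ht_leg (k : ℕ) (t : RT) : ht (leg k t) = ht t + k := by
  induction k with
  | zero => rfl
  | succ k ih =>
    rw [leg_succ, ht_gr, ih, ht_pt]
    omega

/-- a path with `i + 1` vertices, the last of which has `t` leaves -/
def evB (i t : ℕ) : RT := leg i (lv pt t)

/-- a path with `i + 2` vertices, `α` leaves at the last but one, `β` leaves at the last one -/
def odB (i α β : ℕ) : RT := leg i (gr (lv pt α) (lv pt β))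

theorem ht_evB (i t : ℕ) : ht (evB i t) ≤ i + 1 := by
  unfold evB
  rw [ht_leg]
  have := ht_lv pt t
  rw [ht_pt] at this
  simp at this
  omega

theorem ht_odB (i α β : ℕ) : ht (odB i α β) ≤ i + 2 := by
  unfold odB
  rw [ht_leg, ht_gr]
  have h1 := ht_lv pt α
  have h2 := ht_lv pt β
  rw [ht_pt] at h1 h2
  simp at h1 h2
  omega

theorem evB_poly (i : ℕ) : ∃ A P0 P1 : ℤ[X], ∀ t : ℕ,
    L (evB i t) = A + C (t : ℤ) * X ^ (i + 1) ∧
    E (evB i t) = P0 + C (t : ℤ) * P1 + C (t : ℤ) ^ 2 * (X ^ 2 - X ^ (2 * i + 4)) := by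
  induction i with
  | zero =>
    refine ⟨1, -X ^ 2, 2 * X * (1 - X ^ 2) - X ^ 2, fun t => ⟨?_, ?_⟩⟩
    · unfold evB leg
      rw [L_lv]; simp
    · have h := W_lv pt t
      unfold evB leg E
      rw [h, L_lv, L_pt, W_pt]
      ring
  | succ i ih =>
    obtain ⟨A, P0, P1, h⟩ := ih
    refine ⟨1 + X * A, P0 + X ^ 2 * A ^ 2 + 2 * X * A - X ^ 2 * (1 + X * A) ^ 2,
      P1 + 2 * X ^ 2 * A * X ^ (i + 1) + 2 * X * X ^ (i + 1) - 2 * X ^ 2 * (1 + X * A) * (X * X ^ (i + 1)),
      fun t => ⟨?_, ?_⟩⟩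
    · have h1 := (h t).1
      unfold evB at h1 ⊢
      rw [leg_succ, L_gr, L_pt, h1]
      ring
    · have h1 := (h t).1
      have h2 := (h t).2
      unfold evB at h1 h2 ⊢
      rw [leg_succ, E_gr_pt, h1, h2]
      ring

theorem odB_poly (i : ℕ) : ∃ A P00 P10 P01 P20 : ℤ[X], ∀ α β : ℕ,
    L (odB i α β) = A + C (α : ℤ) * X ^ (i + 1) + C (β : ℤ) * X ^ (i + 2) ∧
    E (odB i α β) = P00 + C (α : ℤ) * P10 + C (β : ℤ) * P01 + C (α : ℤ) ^ 2 * P20 +
      2 * C (α : ℤ) * C (β : ℤ) * (X ^ 3 - X ^ (2 * i + 5)) +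
      C (β : ℤ) ^ 2 * (X ^ 2 - X ^ (2 * i + 6)) := by
  induction i with
  | zero =>
    refine ⟨1 + X, 2 * X - X ^ 2 * (1 + X) ^ 2, -X ^ 2 + 2 * X + 2 * X ^ 2 - 2 * X ^ 3 * (1 + X),
      -X ^ 2 + 2 * X + 2 * X ^ 2 - 2 * X ^ 4 * (1 + X), X ^ 2 - X ^ 4,
      fun α β => ⟨?_, ?_⟩⟩
    · unfold odB leg
      rw [L_gr, L_lv, L_lv, L_pt]; ring
    · have h1 := W_lv pt α
      have h2 := W_lv pt β
      have h3 : E (odB 0 α β) = 2 * W (lv pt α) + 2 * W (lv pt β) + 2 * X * (L (lv pt α) * L (lv pt β)) -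
          X ^ 2 * (L (lv pt α) + X * L (lv pt β)) ^ 2 := by
        unfold odB leg E
        rw [W_gr, L_gr]
        ring
      rw [h3, h1, h2, L_lv, L_lv, L_pt, W_pt]
      ring
  | succ i ih =>
    obtain ⟨A, P00, P10, P01, P20, h⟩ := ih
    refine ⟨1 + X * A, P00 + X ^ 2 * A ^ 2 + 2 * X * A - X ^ 2 * (1 + X * A) ^ 2,
      P10 + 2 * X ^ 2 * A * X ^ (i + 1) + 2 * X * X ^ (i + 1) - 2 * X ^ 2 * (1 + X * A) * (X * X ^ (i + 1)),
      P01 + 2 * X ^ 2 * A * X ^ (i + 2) + 2 * X * X ^ (i + 2) - 2 * X ^ 2 * (1 + X * A) * (X * X ^ (i + 2)),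
      P20 + X ^ 2 * X ^ (2 * i + 2) - X ^ 4 * X ^ (2 * i + 2),
      fun α β => ⟨?_, ?_⟩⟩
    · have h1 := (h α β).1
      unfold odB at h1 ⊢
      rw [leg_succ, L_gr, L_pt, h1]
      ring
    · have h1 := (h α β).1
      have h2 := (h α β).2
      unfold odB at h1 h2 ⊢
      rw [leg_succ, E_gr_pt, h1, h2]
      ring

/-- a spine with rooted trees attached -/
def arm : (ℕ → RT) → ℕ → RT
  | t, 0 => t 0
  | t, k + 1 => gr (t 0) (arm (fun i => t (i + 1)) k)

theorem arm_succ (t : ℕ → RT) (k : ℕ) : arm t (k + 1) = gr (t 0) (arm (fun i => t (i + 1)) k) := rfl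

theorem L_arm (t : ℕ → RT) (k : ℕ) : L (arm t k) = ∑ i ∈ range (k + 1), X ^ i * L (t i) := by
  induction k generalizing t with
  | zero => simp [arm]
  | succ k ih =>
    rw [arm_succ, L_gr, ih, Finset.sum_range_succ' _ (k + 1), Finset.mul_sum]
    simp only [pow_succ', mul_assoc, pow_zero, one_mul]
    rw [add_comm]

theorem W_arm (t : ℕ → RT) (k : ℕ) : 2 * W (arm t k) =
    (∑ i ∈ range (k + 1), (2 * W (t i) - L (t i) ^ 2)) +
      ∑ i ∈ range (k + 1), ∑ j ∈ range (k + 1), X ^ (Nat.dist i j) * (L (t i) * L (t j)) := by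
  induction k generalizing t with
  | zero => simp [arm]; ring
  | succ k ih =>
    have e1 : ∑ i ∈ range (k + 1), X ^ (i + 1) * (L (t (i + 1)) * L (t 0)) =
        X * (L (t 0) * L (arm (fun i => t (i + 1)) k)) := by
      rw [L_arm, Finset.mul_sum, Finset.mul_sum]
      exact Finset.sum_congr rfl fun i _ => by ring
    have e2 : ∑ i ∈ range (k + 1), X ^ (i + 1) * (L (t 0) * L (t (i + 1))) =
        X * (L (t 0) * L (arm (fun i => t (i + 1)) k)) := by
      rw [L_arm, Finset.mul_sum, Finset.mul_sum]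
      exact Finset.sum_congr rfl fun i _ => by ring
    have h1 : (∑ i ∈ range (k + 1 + 1), ∑ j ∈ range (k + 1 + 1), X ^ (Nat.dist i j) * (L (t i) * L (t j))) =
        (∑ i ∈ range (k + 1), ∑ j ∈ range (k + 1), X ^ (Nat.dist i j) * (L (t (i + 1)) * L (t (j + 1)))) +
        2 * (X * (L (t 0) * L (arm (fun i => t (i + 1)) k))) + L (t 0) ^ 2 := by
      rw [Finset.sum_range_succ']
      simp only [Finset.sum_range_succ' _ (k + 1), Finset.sum_add_distrib, Nat.dist_succ_succ,
        Nat.dist_zero_left, Nat.dist_zero_right, pow_zero, one_mul]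
      rw [e1, e2]
      ring
    have h2 := ih (fun i => t (i + 1))
    rw [arm_succ, W_gr, h1, Finset.sum_range_succ']
    linear_combination h2

end RT

end Pool.Agent.Helper96.WT
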