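import Mathlib

/-!
# Trees of arbitrarily large diameter with only rational Wiener roots: definitions and parts

`RT` is the type of rooted trees: a point, or `gr a b`, in which the root of `b` becomes a child of
the root of `a`.  `L t` is the level polynomial `∑_v x ^ depth v`, `W t` the Wiener polynomial.

Parts: `S_A` (realisation by graphs), `S_C` (approximate solution), `S_D` (the targets).
-/

set_option autoImplicit false

namespace Pool.Agent.Helper96.WT

open Polynomial Finset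

/-- rooted trees: a point, or `gr a b`: join the root of `a` and the root of `b` by an edge; the root
is the root of `a` -/
inductive RT : Type
  | pt : RT
  | gr : RT → RT → RT

namespace RT

/-- `∑_v x ^ depth v` -/
noncomputable def L : RT → ℤ[X]
  | pt => 1
  | gr a b => L a + X * L b

/-- the Wiener polynomial -/
noncomputable def W : RT → ℤ[X]
  | pt => 0
  | gr a b => W a + W b + X * (L a * L b)

end RT

open Classical in
/-- The Wiener polynomial: the sum of `x ^ d(u, v)` over the unordered pairs of different vertices,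
written as half the sum over the ordered pairs. -/
noncomputable def wienerPoly {V : Type*} [Fintype V] (G : SimpleGraph V) : ℚ[X] :=
  C (1 / 2) * ∑ u : V, ∑ v : V, if u = v then 0 else X ^ G.dist u v

/-- **Part A.**  Every rooted tree is realised by a graph which is a tree. -/
def S_A : Prop := ∀ t : RT, ∃ (V : Type) (_ : Fintype V) (G : SimpleGraph V),
    G.IsTree ∧ wienerPoly G = (RT.W t).map (Int.castRingHom ℚ)

/-- `(1 + x / a) ^ (h - 1) (1 + x / (a + 1))` -/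
noncomputable def eP (h a : ℕ) : ℚ[X] :=
  (1 + C (1 / (a : ℚ)) * X) ^ (h - 1) * (1 + C (1 / ((a : ℚ) + 1)) * X)

/-- the target -/
noncomputable def tgt (h a n : ℕ) : ℚ[X] :=
  C ((n : ℚ) - 1) * X * (1 + C ((n : ℚ) / (2 * (eP h a).eval 1) - 1) * X) * eP h a

/-- **Part D.**  The targets: `h = 2 g - 2`, `a = 8 h`. -/
def S_D : Prop := ∀ g : ℕ, 2 ≤ g → ∀ N0 : ℕ, ∃ (n s : ℕ) (P : ℤ[X]), N0 ≤ n ∧
    P.map (Int.castRingHom ℚ) = tgt (2 * g - 2) (8 * (2 * g - 2)) n ∧
    2 * P.eval (-1) + (n : ℤ) = (s : ℤ) ^ 2 ∧ 87 * n ≤ 100 * s ∧ 100 * s ≤ 91 * n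

/-- level polynomial of what hangs at the `i`-th spine vertex -/
noncomputable def ell (c : ℕ) (Γ : ℤ[X]) (m : ℕ → ℕ) (i : ℕ) : ℤ[X] :=
  1 + C (m i : ℤ) * X + if i = c then Γ else 0

/-- twice the Wiener polynomial of a caterpillar with spine `0, …, h`, `m i` leaves at the spine
vertex `i` and a further rooted structure with level polynomial `Γ` at the spine vertex `c` -/
noncomputable def twoW (h c : ℕ) (Γ E0 : ℤ[X]) (m : ℕ → ℕ) : ℤ[X] :=
  (∑ i ∈ range (h + 1), ∑ j ∈ range (h + 1), X ^ (Nat.dist i j) * (ell c Γ m i * ell c Γ m j)) -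
    C ((h : ℤ) + 1) - X ^ 2 * C (∑ i ∈ range (h + 1), (m i : ℤ)) + E0

/-- **Part C.**  Approximate solution. -/
def S_C : Prop := ∀ g : ℕ, 2 ≤ g → ∀ C0 : ℕ, ∃ N1 : ℕ, ∀ n s : ℕ, N1 ≤ n →
    87 * n ≤ 100 * s → 100 * s ≤ 91 * n → n % 2 = s % 2 →
    ∀ Γ E0 : ℤ[X], (∀ k, 0 ≤ Γ.coeff k) → (((2 * g - 2 : ℕ) : ℤ) + 1 + Γ.eval 1) ^ 2 ≤ C0 * n →
    (∀ k, |E0.coeff k| ≤ C0 * n) →
    ∃ m : ℕ → ℕ, (∑ i ∈ range (2 * g - 2 + 1), (1 + (m i : ℤ))) + Γ.eval 1 = n ∧
      (∑ i ∈ range (2 * g - 2 + 1), (-1) ^ i * (1 - (m i : ℤ))) + (-1) ^ (g - 1) * Γ.eval (-1) =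
        -(s : ℤ) ∧
      ∀ k, 4 ≤ k → k ≤ 2 * g - 2 + 2 →
        |2 * (tgt (2 * g - 2) (8 * (2 * g - 2)) n).coeff k + 2 * (n : ℚ) -
          ((twoW (2 * g - 2) (g - 1) Γ E0 m).coeff k : ℚ)| ≤ 2 * (n : ℚ)

end Pool.Agent.Helper96.WT
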